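import Pool.Agent.MP_4b7180_co.CrossOdd

/-!
# The crossing numbers mod 2 of an arbitrary simple drawing
-/

namespace Pool.Agent.MP_4b7180_co

open Set

namespace CoreAux

/-- Turning number of a nonvanishing function in terms of arguments of its end values. -/
theorem turn_int {f : ℝ → ℂ} (hf : ContinuousOn f (Icc 0 1)) (h0 : ∀ t ∈ Icc (0 : ℝ) 1, f t ≠ 0)
    {a b : ℝ} {r r' : ℝ} (hr : 0 < r) (hr' : 0 < r')
    (ha : f 0 = r * Complex.exp (2 * Real.pi * a * Complex.I))
    (hb : f 1 = r' * Complex.exp (2 * Real.pi * b * Complex.I)) :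
    ∃ n : ℤ, turn f = b - a + n := by
  obtain ⟨L, hL, h⟩ := exists_lift hf h0
  rw [turn_eq hL.continuousOn h]
  have e0 := h 0 (by simp)
  have e1 := h 1 (by simp)
  have hr0 : (r : ℂ) = Complex.exp (Real.log r) := by
    rw [← Complex.ofReal_exp, Real.exp_log hr]
  have hr1 : (r' : ℂ) = Complex.exp (Real.log r') := by
    rw [← Complex.ofReal_exp, Real.exp_log hr']
  rw [ha, hr0, ← Complex.exp_add, Complex.exp_eq_exp_iff_exists_int] at e0
  rw [hb, hr1, ← Complex.exp_add, Complex.exp_eq_exp_iff_exists_int] at e1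
  obtain ⟨m, hm⟩ := e0
  obtain ⟨n, hn⟩ := e1
  refine ⟨n - m, ?_⟩
  have hpi : (2 * Real.pi : ℝ) ≠ 0 := by positivity
  have i0 := congrArg Complex.im hm
  have i1 := congrArg Complex.im hn
  simp only [Complex.add_im, Complex.mul_im, Complex.ofReal_im, Complex.ofReal_re, Complex.I_im,
    Complex.I_re, Complex.mul_re, Complex.intCast_re, Complex.intCast_im, Complex.re_ofNat,
    Complex.im_ofNat] at i0 i1
  rw [Complex.sub_im, div_eq_iff hpi, i0, i1]
  push_cast
  ring

/-- Argument (in turns) of the difference of two points, normalised by the tournament `σ`. -/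
theorem exists_arg {w : ℂ} (hw : w ≠ 0) :
    ∃ r a : ℝ, 0 < r ∧ w = r * Complex.exp (2 * Real.pi * a * Complex.I) := by
  refine ⟨‖w‖, w.arg / (2 * Real.pi), norm_pos_iff.mpr hw, ?_⟩
  have hpi : (2 * Real.pi : ℂ) ≠ 0 := by
    have : (Real.pi : ℂ) ≠ 0 := by exact_mod_cast Real.pi_ne_zero
    simp [this]
  conv_lhs => rw [← Complex.norm_mul_exp_arg_mul_I w]
  congr 2
  push_cast
  field_simp

/-- `turn (-f) = turn f`. -/
theorem turn_neg {f : ℝ → ℂ} (hf : ContinuousOn f (Icc 0 1)) (h0 : ∀ t ∈ Icc (0 : ℝ) 1, f t ≠ 0) :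
    turn (fun t => -f t) = turn f := by
  obtain ⟨L, hL, h⟩ := exists_lift hf h0
  rw [turn_eq hL.continuousOn h,
    turn_eq (f := fun t => -f t) (L := fun t => L t + Real.pi * Complex.I) (by fun_prop)
      (fun t ht => by rw [Complex.exp_add, h t ht, Complex.exp_pi_mul_I]; ring)]
  simp

variable {V : Type*} {G : SimpleGraph V}

/-- Parametrisation of an edge by a function on the line. -/
theorem exists_param {A : Set ℂ} {p q : ℂ} (h : IsArc A p q) :
    ∃ γ : ℝ → ℂ, ContinuousOn γ (Icc 0 1) ∧ InjOn γ (Icc 0 1) ∧ γ 0 = p ∧ γ 1 = q ∧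
      γ '' Icc 0 1 = A := by
  obtain ⟨γ, hinj, hr⟩ := h
  refine ⟨γ.extend, γ.continuous_extend.continuousOn, ?_, by simp, by simp, ?_⟩
  · intro s hs t ht hst
    rw [γ.extend_apply hs, γ.extend_apply ht] at hst
    exact congrArg Subtype.val (hinj hst)
  · rw [← hr]
    ext z
    constructor
    · rintro ⟨s, hs, rfl⟩
      exact ⟨⟨s, hs⟩, (γ.extend_apply hs).symm⟩
    · rintro ⟨s, rfl⟩
      exact ⟨s, s.2, γ.extend_apply s.2⟩

/-- For one pair of independent edges. -/
theorem pair (D : Drawing G) (hD : D.IsSimple) (A : V → V → ℝ) (n : V → V → ℤ)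
    (hn : ∀ u v, u ≠ v → A v u - A u v = 1 / 2 + n u v)
    {x y z t : V} (hxy : G.Adj x y) (hzt : G.Adj z t) (hxz : x ≠ z) (hxt : x ≠ t) (hyz : y ≠ z)
    (hyt : y ≠ t) {γ δ : ℝ → ℂ}
    (hγ : ContinuousOn γ (Icc 0 1)) (iγ : InjOn γ (Icc 0 1)) (γ0 : γ 0 = D.pt x)
    (γ1 : γ 1 = D.pt y) (γr : γ '' Icc 0 1 = D.arc s(x, y))
    (hδ : ContinuousOn δ (Icc 0 1)) (iδ : InjOn δ (Icc 0 1)) (δ0 : δ 0 = D.pt z)
    (δ1 : δ 1 = D.pt t) (δr : δ '' Icc 0 1 = D.arc s(z, t))
    {me mf : V → ℤ}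
    (hme : ∀ v, v ≠ x → v ≠ y → turn (fun s => γ s - D.pt v) = A y v - A x v + me v)
    (hmf : ∀ v, v ≠ z → v ≠ t → turn (fun s => δ s - D.pt v) = A t v - A z v + mf v) :
    D.cr s(x, y) s(z, t) = me z + me t + mf x + mf y
      + ((n x z : ZMod 2) + n x t + n y z + n y t) := by
  have hind : Indep s(x, y) s(z, t) := by
    rintro v ⟨h1, h2⟩
    rw [Sym2.mem_iff] at h1 h2
    rcases h1 with rfl | rfl <;> rcases h2 with h | h <;> simp_all
  have he : s(x, y) ∈ G.edgeSet := hxy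
  have hf : s(z, t) ∈ G.edgeSet := hzt
  -- vertices are not on the other edges
  have hz : ∀ v, v ≠ x → v ≠ y → ∀ s ∈ Icc (0 : ℝ) 1, γ s - D.pt v ≠ 0 := by
    intro v hvx hvy s hs h
    have : D.pt v ∈ D.arc s(x, y) := by
      rw [← γr, ← sub_eq_zero.mp h]; exact mem_image_of_mem _ hs
    have := D.mem_of_pt_mem _ he v this
    rw [Sym2.mem_iff] at this
    tauto
  have hx : ∀ v, v ≠ z → v ≠ t → ∀ s ∈ Icc (0 : ℝ) 1, δ s - D.pt v ≠ 0 := by
    intro v hvx hvy s hs h
    have : D.pt v ∈ D.arc s(z, t) := by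
      rw [← δr, ← sub_eq_zero.mp h]; exact mem_image_of_mem _ hs
    have := D.mem_of_pt_mem _ hf v this
    rw [Sym2.mem_iff] at this
    tauto
  -- boundary winding number
  have hbd : bd (fun s r => γ s - δ r) = ((me z + mf y - me t - mf x - n y z + n x z + n y t
      - n x t : ℤ) : ℝ) := by
    unfold bd
    simp only [γ0, γ1, δ0, δ1]
    have e1 : turn (fun r => D.pt y - δ r) = turn (fun r => δ r - D.pt y) := by
      rw [← turn_neg (f := fun r => δ r - D.pt y) (hδ.sub continuousOn_const)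
        (hx y hyz hyt)]
      simp
    have e2 : turn (fun r => D.pt x - δ r) = turn (fun r => δ r - D.pt x) := by
      rw [← turn_neg (f := fun r => δ r - D.pt x) (hδ.sub continuousOn_const)
        (hx x hxz hxt)]
      simp
    rw [e1, e2, hme z hxz.symm hyz.symm, hme t hxt.symm hyt.symm, hmf y hyz hyt, hmf x hxz hxt]
    have := hn x z hxz
    have := hn x t hxt
    have := hn y z hyz
    have := hn y t hyt
    push_cast
    linarith
  have hpar : ∀ k : ℤ, bd (fun s r => γ s - δ r) = k → (k : ZMod 2) = me z + me t + mf x + mf y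
      + ((n x z : ZMod 2) + n x t + n y z + n y t) := by
    intro k hk
    rw [hbd] at hk
    have hk' : (me z + mf y - me t - mf x - n y z + n x z + n y t - n x t : ℤ) = k := by
      exact_mod_cast hk
    rw [← hk']
    push_cast
    have h2 : (2 : ZMod 2) = 0 := rfl
    linear_combination (-(me t : ZMod 2) - mf x - n y z - n x t) * h2
  by_cases hc : D.Crosses s(x, y) s(z, t)
  · have hcr : D.cr s(x, y) s(z, t) = 1 := by
      unfold Drawing.cr; rw [if_pos hc]
    obtain ⟨p, hp1, hp2⟩ := hc.2.2.2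
    have hp1' := hp1
    have hp2' := hp2
    rw [← γr] at hp1'
    rw [← δr] at hp2'
    obtain ⟨s₀, hs₀, hsp⟩ := hp1'
    obtain ⟨t₀, ht₀, htp⟩ := hp2'
    have hs01 : s₀ ∈ Ioo (0 : ℝ) 1 := by
      refine ⟨lt_of_le_of_ne hs₀.1 ?_, lt_of_le_of_ne hs₀.2 ?_⟩
      · rintro rfl
        exact hx x hxz hxt t₀ ht₀ (by rw [htp, ← hsp, γ0, sub_self])
      · rintro rfl
        exact hx y hyz hyt t₀ ht₀ (by rw [htp, ← hsp, γ1, sub_self])
    have ht01 : t₀ ∈ Ioo (0 : ℝ) 1 := by
      refine ⟨lt_of_le_of_ne ht₀.1 ?_, lt_of_le_of_ne ht₀.2 ?_⟩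
      · rintro rfl
        exact hz z hxz.symm hyz.symm s₀ hs₀ (by rw [hsp, ← htp, δ0, sub_self])
      · rintro rfl
        exact hz t hxt.symm hyt.symm s₀ hs₀ (by rw [hsp, ← htp, δ1, sub_self])
    obtain ⟨k, hk⟩ := bd_odd hγ hδ iγ iδ hs01 ht01 (hsp.trans htp.symm)
      (fun s hs r hr hsr => by
        have : γ s = p := hD.once _ he _ hf hind
          ⟨by rw [← γr]; exact mem_image_of_mem _ hs, by
            rw [← δr, hsr]; exact mem_image_of_mem _ hr⟩ ⟨hp1, hp2⟩
        exact ⟨iγ hs hs₀ (this.trans hsp.symm), iδ hr ht₀ ((hsr.symm.trans this).trans htp.symm)⟩)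
      (by rw [γr, δr, hsp]; exact hD.crossAt _ he _ hf hind p ⟨hp1, hp2⟩)
    have := hpar (2 * k + 1) (by rw [hk]; push_cast; ring)
    rw [hcr, ← this]
    push_cast
    have h2 : (2 : ZMod 2) = 0 := rfl
    linear_combination (-(k : ZMod 2)) * h2
  · have hcr : D.cr s(x, y) s(z, t) = 0 := by
      unfold Drawing.cr; rw [if_neg hc]
    rw [hcr, ← hpar 0 ?_]
    · simp
    · rw [bd_zero]
      · simp
      · exact (hγ.comp continuousOn_fst (fun p hp => hp.1)).sub
          (hδ.comp continuousOn_snd (fun p hp => hp.2))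
      · intro s hs r hr h
        apply hc
        refine ⟨he, hf, hind, γ s, ?_, ?_⟩
        · rw [← γr]; exact mem_image_of_mem _ hs
        · rw [← δr, sub_eq_zero.mp h]; exact mem_image_of_mem _ hr

end CoreAux

open CoreAux in
/-- The structure of the crossing numbers mod 2 of an arbitrary simple drawing. -/
theorem core {V : Type*} {G : SimpleGraph V} (D : Drawing G) (hD : D.IsSimple) :
    ∃ (m : Sym2 V → V → ZMod 2) (σ : V → V → ZMod 2), (∀ u v, u ≠ v → σ u v + σ v u = 1) ∧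
      ∀ x y z t, G.Adj x y → G.Adj z t → x ≠ z → x ≠ t → y ≠ z → y ≠ t →
        D.cr s(x, y) s(z, t) = m s(x, y) z + m s(x, y) t + m s(z, t) x + m s(z, t) y
          + (σ x z + σ x t + σ y z + σ y t) := by
  classical
  -- arguments
  have hA : ∀ u v, ∃ r a : ℝ, u ≠ v → 0 < r ∧
      D.pt u - D.pt v = r * Complex.exp (2 * Real.pi * a * Complex.I) := by
    intro u v
    by_cases h : u = v
    · exact ⟨0, 0, fun h' => absurd h h'⟩
    · obtain ⟨r, a, h1, h2⟩ := exists_arg (sub_ne_zero.mpr (fun e => h (D.pt_injective e)))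
      exact ⟨r, a, fun _ => ⟨h1, h2⟩⟩
  choose R A hRA using hA
  have hn : ∀ u v, ∃ n : ℤ, u ≠ v → A v u - A u v = 1 / 2 + n := by
    intro u v
    by_cases h : u = v
    · exact ⟨0, fun h' => absurd h h'⟩
    · obtain ⟨h1, h2⟩ := hRA u v h
      obtain ⟨h3, h4⟩ := hRA v u (Ne.symm h)
      -- the constant function `-(pt u - pt v)`
      have hne : D.pt v - D.pt u ≠ 0 := sub_ne_zero.mpr (fun e => h (D.pt_injective e).symm)
      have hc : D.pt v - D.pt u
          = R u v * Complex.exp (2 * Real.pi * ((A u v + 1 / 2 : ℝ) : ℂ) * Complex.I) := by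
        have : (2 * Real.pi * ((A u v + 1 / 2 : ℝ) : ℂ) * Complex.I)
            = 2 * Real.pi * A u v * Complex.I + Real.pi * Complex.I := by push_cast; ring
        rw [this, Complex.exp_add, Complex.exp_pi_mul_I]
        linear_combination -h2
      obtain ⟨n, hn⟩ := turn_int (f := fun _ => D.pt v - D.pt u) continuousOn_const
        (fun _ _ => hne) h1 h3 hc h4
      have h0 : turn (fun _ => D.pt v - D.pt u) = 0 := by
        rw [turn_eq (L := fun _ => Complex.log (D.pt v - D.pt u)) continuousOn_const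
          (fun _ _ => Complex.exp_log hne)]
        simp
      exact ⟨-n, fun _ => by push_cast; linarith⟩
  choose n hn using hn
  -- parametrisations
  have hM : ∀ e : Sym2 V, ∃ (x y : V) (γ : ℝ → ℂ) (m : V → ℤ), e ∈ G.edgeSet →
      e = s(x, y) ∧ G.Adj x y ∧ ContinuousOn γ (Icc 0 1) ∧ InjOn γ (Icc 0 1) ∧ γ 0 = D.pt x ∧
        γ 1 = D.pt y ∧ γ '' Icc 0 1 = D.arc s(x, y) ∧
        ∀ v, v ≠ x → v ≠ y → turn (fun s => γ s - D.pt v) = A y v - A x v + m v := by
    intro e
    induction e using Sym2.ind with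
    | _ x y =>
      by_cases hxy : G.Adj x y
      · obtain ⟨γ, h1, h2, h3, h4, h5⟩ := exists_param (D.isArc x y hxy)
        have : ∀ v, ∃ m : ℤ, v ≠ x → v ≠ y →
            turn (fun s => γ s - D.pt v) = A y v - A x v + m := by
          intro v
          by_cases hv : v ≠ x ∧ v ≠ y
          · have hz : ∀ s ∈ Icc (0 : ℝ) 1, γ s - D.pt v ≠ 0 := by
              intro s hs h
              have : D.pt v ∈ D.arc s(x, y) := by
                rw [← h5, ← sub_eq_zero.mp h]; exact mem_image_of_mem _ hs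
              have := D.mem_of_pt_mem _ hxy v this
              rw [Sym2.mem_iff] at this
              tauto
            obtain ⟨a1, a2⟩ := hRA x v (Ne.symm hv.1)
            obtain ⟨b1, b2⟩ := hRA y v (Ne.symm hv.2)
            obtain ⟨m, hm⟩ := turn_int (f := fun s => γ s - D.pt v) (h1.sub continuousOn_const) hz
              a1 b1 (by rw [h3]; exact a2) (by rw [h4]; exact b2)
            exact ⟨m, fun _ _ => hm⟩
          · exact ⟨0, fun h h' => absurd ⟨h, h'⟩ hv⟩
        choose m hm using this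
        exact ⟨x, y, γ, m, fun _ => ⟨rfl, hxy, h1, h2, h3, h4, h5, hm⟩⟩
      · exact ⟨x, x, fun _ => 0, fun _ => 0, fun h => absurd h hxy⟩
  choose X Y Γ M hM using hM
  refine ⟨fun e v => (M e v : ZMod 2), fun u v => (n u v : ZMod 2), ?_, ?_⟩
  · intro u v huv
    have h1 := hn u v huv
    have h2 := hn v u huv.symm
    have h3 : ((n u v + n v u : ℤ) : ℝ) = ((-1 : ℤ) : ℝ) := by push_cast; linarith
    have h4 : n u v + n v u = -1 := by exact_mod_cast h3
    have h5 : ((n u v + n v u : ℤ) : ZMod 2) = ((-1 : ℤ) : ZMod 2) := by rw [h4]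
    push_cast at h5
    rw [h5]
    rfl
  · intro x y z t hxy hzt hxz hxt hyz hyt
    obtain ⟨e1, e2, e3, e4, e5, e6, e7, e8⟩ := hM s(x, y) hxy
    obtain ⟨f1, f2, f3, f4, f5, f6, f7, f8⟩ := hM s(z, t) hzt
    -- the chosen ends
    have hpair : ∀ x' y' z' t', X s(x, y) = x' → Y s(x, y) = y' → X s(z, t) = z' →
        Y s(z, t) = t' → x' ≠ z' → x' ≠ t' → y' ≠ z' → y' ≠ t' →
        D.cr s(x, y) s(z, t) = (M s(x, y) z' : ZMod 2) + M s(x, y) t' + M s(z, t) x'
          + M s(z, t) y' + ((n x' z' : ZMod 2) + n x' t' + n y' z' + n y' t') := by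
      intro x' y' z' t' hx' hy' hz' ht' h1 h2 h3 h4
      rw [hx', hy'] at e1 e8 e7 e2
      rw [hx'] at e5
      rw [hy'] at e6
      rw [hz', ht'] at f1 f8 f7 f2
      rw [hz'] at f5
      rw [ht'] at f6
      have := pair D hD A n hn e2 f2 h1 h2 h3 h4 e3 e4 e5 e6 e7 f3 f4 f5 f6 f7 e8 f8
      rw [e1, f1]
      rw [e1, f1] at this
      exact this
    rcases Sym2.eq_iff.mp e1 with ⟨a1, a2⟩ | ⟨a1, a2⟩ <;>
      rcases Sym2.eq_iff.mp f1 with ⟨b1, b2⟩ | ⟨b1, b2⟩
    · rw [hpair x y z t a1.symm a2.symm b1.symm b2.symm hxz hxt hyz hyt]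
    · rw [hpair x y t z a1.symm a2.symm b2.symm b1.symm hxt hxz hyt hyz]; ring
    · rw [hpair y x z t a2.symm a1.symm b1.symm b2.symm hyz hyt hxz hxt]; ring
    · rw [hpair y x t z a2.symm a1.symm b2.symm b1.symm hyt hyz hxt hxz]; ring

end Pool.Agent.MP_4b7180_co
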