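import Pool.Agent.MP_4b7180_co.Turn

/-!
# Two arcs which cross once have odd boundary winding number
-/

namespace Pool.Agent.MP_4b7180_co

open Set

namespace CrossOdd

theorem turn_congr {f g : ℝ → ℂ} (h : ∀ t ∈ Icc (0 : ℝ) 1, f t = g t) : turn f = turn g := by
  have e : (fun L : ℝ → ℂ => ContinuousOn L (Icc 0 1) ∧
      ∀ t ∈ Icc (0 : ℝ) 1, Complex.exp (L t) = f t)
      = (fun L : ℝ → ℂ => ContinuousOn L (Icc 0 1) ∧
      ∀ t ∈ Icc (0 : ℝ) 1, Complex.exp (L t) = g t) := by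
    funext L
    apply propext
    constructor
    · rintro ⟨h1, h2⟩
      exact ⟨h1, fun t ht => (h2 t ht).trans (h t ht)⟩
    · rintro ⟨h1, h2⟩
      exact ⟨h1, fun t ht => (h2 t ht).trans (h t ht).symm⟩
  classical
  exact congrArg (fun P : (ℝ → ℂ) → Prop =>
    if h : ∃ L, P L then (h.choose 1 - h.choose 0).im / (2 * Real.pi) else 0) e

theorem bd_congr {F G : ℝ → ℝ → ℂ} (h : ∀ s ∈ Icc (0 : ℝ) 1, ∀ t ∈ Icc (0 : ℝ) 1, F s t = G s t) :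
    bd F = bd G := by
  have z : (0 : ℝ) ∈ Icc (0 : ℝ) 1 := ⟨le_rfl, zero_le_one⟩
  have o : (1 : ℝ) ∈ Icc (0 : ℝ) 1 := ⟨zero_le_one, le_rfl⟩
  unfold bd
  rw [turn_congr (f := fun s => F s 0) (g := fun s => G s 0) (fun s hs => h s hs 0 z),
    turn_congr (f := fun t => F 1 t) (g := fun t => G 1 t) (fun t ht => h 1 o t ht),
    turn_congr (f := fun s => F s 1) (g := fun s => G s 1) (fun s hs => h s hs 1 o),
    turn_congr (f := fun t => F 0 t) (g := fun t => G 0 t) (fun t ht => h 0 z t ht)]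

theorem one_sub_mem {s : ℝ} (h : s ∈ Icc (0 : ℝ) 1) : 1 - s ∈ Icc (0 : ℝ) 1 :=
  ⟨by linarith [h.2], by linarith [h.1]⟩

/-- A path and its opposite reversed path. -/
theorem turn_rev {f g L : ℝ → ℂ} (hL : Continuous L)
    (h : ∀ t ∈ Icc (0 : ℝ) 1, Complex.exp (L t) = f t)
    (hfg : ∀ t ∈ Icc (0 : ℝ) 1, g t = - f (1 - t)) : turn g = - turn f := by
  rw [turn_eq hL.continuousOn h]
  have h2 : turn g = _ := turn_eq (f := g) (L := fun t => L (1 - t) + Real.pi * Complex.I)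
    (by fun_prop) (fun t ht => by
      rw [Complex.exp_add, Complex.exp_pi_mul_I, h _ (one_sub_mem ht), hfg t ht]
      ring)
  rw [h2]
  simp only [sub_self, sub_zero]
  rw [show L 0 + Real.pi * Complex.I - (L 1 + Real.pi * Complex.I) = - (L 1 - L 0) by ring,
    Complex.neg_im]
  ring

theorem bd_of_odd {G : ℝ → ℝ → ℂ} (h1 : ContinuousOn (fun s => G s 0) (Icc 0 1))
    (h1' : ∀ s ∈ Icc (0 : ℝ) 1, G s 0 ≠ 0) (h2 : ContinuousOn (fun t => G 1 t) (Icc 0 1))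
    (h2' : ∀ t ∈ Icc (0 : ℝ) 1, G 1 t ≠ 0)
    (hodd : ∀ s ∈ Icc (0 : ℝ) 1, ∀ t ∈ Icc (0 : ℝ) 1, G (1 - s) (1 - t) = - G s t) :
    ∃ k : ℤ, bd G = 2 * k + 1 := by
  have z : (0 : ℝ) ∈ Icc (0 : ℝ) 1 := ⟨le_rfl, zero_le_one⟩
  have o : (1 : ℝ) ∈ Icc (0 : ℝ) 1 := ⟨zero_le_one, le_rfl⟩
  obtain ⟨L, hL, eL⟩ := exists_lift h1 h1'
  obtain ⟨M, hM, eM⟩ := exists_lift h2 h2'
  have t1 : turn (fun s => G s 1) = - turn (fun s => G s 0) :=
    turn_rev hL eL (fun t ht => by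
      have := hodd (1 - t) (one_sub_mem ht) 0 z
      rw [sub_sub_cancel, sub_zero] at this
      exact this)
  have t2 : turn (fun t => G 0 t) = - turn (fun t => G 1 t) :=
    turn_rev hM eM (fun t ht => by
      have := hodd 1 o (1 - t) (one_sub_mem ht)
      rw [sub_sub_cancel, sub_self] at this
      exact this)
  have e1 : Complex.exp (L 1) = Complex.exp (M 0) := by rw [eL 1 o, eM 0 z]
  have e2 : Complex.exp (M 1) = Complex.exp (L 0 + Real.pi * Complex.I) := by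
    rw [eM 1 o, Complex.exp_add, Complex.exp_pi_mul_I, eL 0 z]
    have := hodd 0 z 0 z
    rw [sub_zero] at this
    rw [this]
    ring
  obtain ⟨k1, hk1⟩ := Complex.exp_eq_exp_iff_exists_int.1 e1
  obtain ⟨k2, hk2⟩ := Complex.exp_eq_exp_iff_exists_int.1 e2
  refine ⟨k1 + k2, ?_⟩
  unfold bd
  rw [t1, t2, turn_eq (L := L) hL.continuousOn eL, turn_eq (L := M) hM.continuousOn eM, hk1, hk2]
  have hp : (Real.pi : ℝ) ≠ 0 := Real.pi_ne_zero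
  have i1 : (M 0 + k1 * (2 * Real.pi * Complex.I) - L 0).im
      = (M 0).im - (L 0).im + k1 * (2 * Real.pi) := by
    simp [Complex.add_im, Complex.sub_im, Complex.mul_im]
    ring
  have i2 : (L 0 + Real.pi * Complex.I + k2 * (2 * Real.pi * Complex.I) - M 0).im
      = (L 0).im - (M 0).im + Real.pi + k2 * (2 * Real.pi) := by
    simp [Complex.add_im, Complex.sub_im, Complex.mul_im]
    ring
  rw [i1, i2]
  push_cast
  field_simp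
  ring

/-- The straight interpolation does not vanish at the two ends. -/
theorem interp_ne {α ε τ x y : ℝ} (hα : α = 1 ∨ α = -1) (hε : 0 < ε) (hτ : τ ∈ Icc (0 : ℝ) 1)
    (h : (α * x < 0 ∧ y = -1) ∨ (0 < α * x ∧ y = 1)) :
    (1 - τ) * x + τ * (α * ε * y) ≠ 0 := by
  intro h0
  have hα2 : α * α = 1 := by rcases hα with h | h <;> rw [h] <;> norm_num
  have h1 : (1 - τ) * (α * x) + τ * (ε * y) = 0 := by
    have : α * ((1 - τ) * x + τ * (α * ε * y)) = 0 := by rw [h0, mul_zero]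
    calc (1 - τ) * (α * x) + τ * (ε * y) = α * ((1 - τ) * x) + τ * (1 * ε * y) := by ring
      _ = α * ((1 - τ) * x) + τ * ((α * α) * ε * y) := by rw [hα2]
      _ = α * ((1 - τ) * x + τ * (α * ε * y)) := by ring
      _ = 0 := this
  obtain ⟨t0, t1⟩ := hτ
  rcases h with ⟨h2, h3⟩ | ⟨h2, h3⟩
  · rw [h3] at h1
    rcases t0.eq_or_lt with h4 | h4
    · rw [← h4] at h1
      linarith
    · have h5 := mul_pos h4 hε
      have h6 := mul_nonneg (sub_nonneg.2 t1) (neg_pos.2 h2).le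
      linarith
  · rw [h3] at h1
    rcases t0.eq_or_lt with h4 | h4
    · rw [← h4] at h1
      linarith
    · have h5 := mul_pos h4 hε
      have h6 := mul_nonneg (sub_nonneg.2 t1) h2.le
      linarith

theorem interp_lt {α ε τ x y r : ℝ} (hα : α = 1 ∨ α = -1) (hε : 0 < ε) (hεr : ε < r)
    (hτ : τ ∈ Icc (0 : ℝ) 1) (hx : |x| < r) (hy : |y| ≤ 1) :
    |(1 - τ) * x + τ * (α * ε * y)| < r := by
  obtain ⟨t0, t1⟩ := hτ
  have hα1 : |α| = 1 := by rcases hα with h | h <;> rw [h] <;> norm_num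
  have h1 : |α * ε * y| ≤ ε := by
    rw [abs_mul, abs_mul, hα1, one_mul, abs_of_pos hε]
    calc ε * |y| ≤ ε * 1 := mul_le_mul_of_nonneg_left hy hε.le
      _ = ε := mul_one ε
  have h2 : |(1 - τ) * x| = (1 - τ) * |x| := by rw [abs_mul, abs_of_nonneg (sub_nonneg.2 t1)]
  have h3 : |τ * (α * ε * y)| = τ * |α * ε * y| := by rw [abs_mul, abs_of_nonneg t0]
  have h4 := abs_add_le ((1 - τ) * x) (τ * (α * ε * y))
  rw [h2, h3] at h4
  have h5 : τ * |α * ε * y| ≤ τ * ε := mul_le_mul_of_nonneg_left h1 t0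
  rcases t1.lt_or_eq with h6 | h6
  · have h7 : (1 - τ) * |x| < (1 - τ) * r := mul_lt_mul_of_pos_left hx (sub_pos.2 h6)
    have h8 : τ * ε ≤ τ * r := mul_le_mul_of_nonneg_left hεr.le t0
    linarith
  · rw [h6] at h4 h5 ⊢
    have : (1 - 1) * |x| = 0 := by ring
    linarith

theorem norm_lt {A B τ r : ℝ} (hτ : τ ∈ Icc (0 : ℝ) 1) (hA : |A| < r) (hB : |B| < r) :
    ‖(A : ℂ) - τ / 2 * (A + B * Complex.I)‖ < 4 * r ∧
      ‖(B : ℂ) * Complex.I - τ / 2 * (A + B * Complex.I)‖ < 4 * r := by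
  have nA : ‖(A : ℂ)‖ = |A| := by rw [Complex.norm_real, Real.norm_eq_abs]
  have nB : ‖(B : ℂ) * Complex.I‖ = |B| := by
    rw [norm_mul, Complex.norm_I, mul_one, Complex.norm_real, Real.norm_eq_abs]
  have nτ : ‖(τ : ℂ) / 2‖ ≤ 1 := by
    rw [norm_div, Complex.norm_real, Real.norm_eq_abs, abs_of_nonneg hτ.1, Complex.norm_ofNat]
    linarith [hτ.2]
  have hs : ‖(A : ℂ) + B * Complex.I‖ ≤ |A| + |B| := by
    rw [← nA, ← nB]; exact norm_add_le _ _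
  have hm : ‖(τ : ℂ) / 2 * (A + B * Complex.I)‖ ≤ |A| + |B| := by
    rw [norm_mul]
    calc ‖(τ : ℂ) / 2‖ * ‖(A : ℂ) + B * Complex.I‖ ≤ 1 * (|A| + |B|) :=
          mul_le_mul nτ hs (norm_nonneg _) zero_le_one
      _ = |A| + |B| := one_mul _
  have h1 := norm_sub_le (A : ℂ) (τ / 2 * (A + B * Complex.I))
  have h2 := norm_sub_le ((B : ℂ) * Complex.I) (τ / 2 * (A + B * Complex.I))
  rw [nA] at h1
  rw [nB] at h2
  have := abs_nonneg A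
  have := abs_nonneg B
  constructor <;> linarith

/-- The winding number in a chart. -/
theorem bd_local {ψ : ℂ → ℂ} {r : ℝ} (hr : 0 < r) (hψ : ContinuousOn ψ (Metric.ball 0 (4 * r)))
    (iψ : InjOn ψ (Metric.ball 0 (4 * r))) {a b : ℝ → ℝ} (ha : ContinuousOn a (Icc 0 1))
    (hb : ContinuousOn b (Icc 0 1)) (ha' : ∀ s ∈ Icc (0 : ℝ) 1, |a s| < r)
    (hb' : ∀ s ∈ Icc (0 : ℝ) 1, |b s| < r) {α β : ℝ} (hα : α = 1 ∨ α = -1)
    (hβ : β = 1 ∨ β = -1) (a0 : α * a 0 < 0) (a1 : 0 < α * a 1) (b0 : β * b 0 < 0)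
    (b1 : 0 < β * b 1) :
    ∃ k : ℤ, bd (fun s t => ψ ((a s : ℝ) : ℂ) - ψ ((b t : ℝ) * Complex.I)) = 2 * k + 1 := by
  have z : (0 : ℝ) ∈ Icc (0 : ℝ) 1 := ⟨le_rfl, zero_le_one⟩
  have o : (1 : ℝ) ∈ Icc (0 : ℝ) 1 := ⟨zero_le_one, le_rfl⟩
  obtain ⟨ε, hε, hεr⟩ : ∃ ε : ℝ, 0 < ε ∧ ε < r := ⟨r / 2, by linarith, by linarith⟩
  -- the two interpolations
  let A : ℝ × ℝ × ℝ → ℝ := fun p => (1 - p.1) * a p.2.1 + p.1 * (α * ε * (2 * p.2.1 - 1))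
  let B : ℝ × ℝ × ℝ → ℝ := fun p => (1 - p.1) * b p.2.2 + p.1 * (β * ε * (2 * p.2.2 - 1))
  let U : ℝ × ℝ × ℝ → ℂ := fun p =>
    (A p : ℂ) - (p.1 : ℂ) / 2 * ((A p : ℂ) + (B p : ℂ) * Complex.I)
  let W : ℝ × ℝ × ℝ → ℂ := fun p =>
    (B p : ℂ) * Complex.I - (p.1 : ℂ) / 2 * ((A p : ℂ) + (B p : ℂ) * Complex.I)
  have cA : ContinuousOn A (Icc 0 1 ×ˢ Icc 0 1 ×ˢ Icc 0 1) := by
    refine ContinuousOn.add (ContinuousOn.mul (by fun_prop) ?_) (by fun_prop)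
    exact ha.comp (f := fun p : ℝ × ℝ × ℝ => p.2.1) (by fun_prop) (fun p hp => hp.2.1)
  have cB : ContinuousOn B (Icc 0 1 ×ˢ Icc 0 1 ×ˢ Icc 0 1) := by
    refine ContinuousOn.add (ContinuousOn.mul (by fun_prop) ?_) (by fun_prop)
    exact hb.comp (f := fun p : ℝ × ℝ × ℝ => p.2.2) (by fun_prop) (fun p hp => hp.2.2)
  have cA' : ContinuousOn (fun p => (A p : ℂ)) (Icc 0 1 ×ˢ Icc 0 1 ×ˢ Icc 0 1) :=
    Complex.continuous_ofReal.comp_continuousOn cA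
  have cB' : ContinuousOn (fun p => (B p : ℂ)) (Icc 0 1 ×ˢ Icc 0 1 ×ˢ Icc 0 1) :=
    Complex.continuous_ofReal.comp_continuousOn cB
  have cτ : ContinuousOn (fun p : ℝ × ℝ × ℝ => (p.1 : ℂ) / 2)
      (Icc 0 1 ×ˢ Icc 0 1 ×ˢ Icc 0 1) := by fun_prop
  have cS := cA'.add (cB'.mul (continuousOn_const (c := Complex.I)))
  have cU : ContinuousOn U (Icc 0 1 ×ˢ Icc 0 1 ×ˢ Icc 0 1) := cA'.sub (cτ.mul cS)
  have cW : ContinuousOn W (Icc 0 1 ×ˢ Icc 0 1 ×ˢ Icc 0 1) :=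
    (cB'.mul (continuousOn_const (c := Complex.I))).sub (cτ.mul cS)
  have y1 : ∀ s ∈ Icc (0 : ℝ) 1, |2 * s - 1| ≤ 1 := fun s hs => by
    rw [abs_le]; constructor <;> linarith [hs.1, hs.2]
  have bA : ∀ p ∈ Icc (0 : ℝ) 1 ×ˢ Icc (0 : ℝ) 1 ×ˢ Icc (0 : ℝ) 1, |A p| < r := fun p hp =>
    interp_lt hα hε hεr hp.1 (ha' _ hp.2.1) (y1 _ hp.2.1)
  have bB : ∀ p ∈ Icc (0 : ℝ) 1 ×ˢ Icc (0 : ℝ) 1 ×ˢ Icc (0 : ℝ) 1, |B p| < r := fun p hp =>
    interp_lt hβ hε hεr hp.1 (hb' _ hp.2.2) (y1 _ hp.2.2)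
  have mU : ∀ p ∈ Icc (0 : ℝ) 1 ×ˢ Icc (0 : ℝ) 1 ×ˢ Icc (0 : ℝ) 1,
      U p ∈ Metric.ball (0 : ℂ) (4 * r) := fun p hp => by
    rw [mem_ball_zero_iff]
    exact (norm_lt hp.1 (bA p hp) (bB p hp)).1
  have mW : ∀ p ∈ Icc (0 : ℝ) 1 ×ˢ Icc (0 : ℝ) 1 ×ˢ Icc (0 : ℝ) 1,
      W p ∈ Metric.ball (0 : ℂ) (4 * r) := fun p hp => by
    rw [mem_ball_zero_iff]
    exact (norm_lt hp.1 (bA p hp) (bB p hp)).2
  let H : ℝ → ℝ → ℝ → ℂ := fun τ s t => ψ (U (τ, s, t)) - ψ (W (τ, s, t))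
  have cH : ContinuousOn (fun p : ℝ × ℝ × ℝ => H p.1 p.2.1 p.2.2)
      (Icc 0 1 ×ˢ Icc 0 1 ×ˢ Icc 0 1) :=
    (hψ.comp cU mU).sub (hψ.comp cW mW)
  have nH : ∀ τ ∈ Icc (0 : ℝ) 1, ∀ s ∈ Icc (0 : ℝ) 1, ∀ t ∈ Icc (0 : ℝ) 1,
      (s = 0 ∨ s = 1 ∨ t = 0 ∨ t = 1) → H τ s t ≠ 0 := by
    intro τ hτ s hs t ht h h0
    have hp : ((τ, s, t) : ℝ × ℝ × ℝ) ∈ Icc (0 : ℝ) 1 ×ˢ Icc (0 : ℝ) 1 ×ˢ Icc (0 : ℝ) 1 :=
      ⟨hτ, hs, ht⟩
    have h1 : U (τ, s, t) = W (τ, s, t) := iψ (mU _ hp) (mW _ hp) (sub_eq_zero.1 h0)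
    have h2 : (A (τ, s, t) : ℂ) = (B (τ, s, t) : ℂ) * Complex.I := by
      have : (A (τ, s, t) : ℂ) - (B (τ, s, t) : ℂ) * Complex.I
        = U (τ, s, t) - W (τ, s, t) := by simp only [U, W]; ring
      rw [h1, sub_self] at this
      exact sub_eq_zero.1 this
    have h3 : A (τ, s, t) = 0 := by
      have := congrArg Complex.re h2
      simpa using this
    have h4 : B (τ, s, t) = 0 := by
      have := congrArg Complex.im h2
      simpa using this.symm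
    rcases h with h | h | h | h
    · subst h
      exact interp_ne hα hε hτ (Or.inl ⟨a0, by norm_num⟩) h3
    · subst h
      exact interp_ne hα hε hτ (Or.inr ⟨a1, by norm_num⟩) h3
    · subst h
      exact interp_ne hβ hε hτ (Or.inl ⟨b0, by norm_num⟩) h4
    · subst h
      exact interp_ne hβ hε hτ (Or.inr ⟨b1, by norm_num⟩) h4
  have key := bd_homotopy cH nH
  have e0 : bd (H 0) = bd (fun s t => ψ ((a s : ℝ) : ℂ) - ψ ((b t : ℝ) * Complex.I)) := by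
    refine bd_congr (fun s _ t _ => ?_)
    simp only [H, U, W, A, B]
    norm_num
  rw [← e0, key]
  have c1 : ContinuousOn (fun s => H 1 s 0) (Icc 0 1) :=
    cH.comp (f := fun s : ℝ => ((1 : ℝ), s, (0 : ℝ))) (by fun_prop) (fun s hs => ⟨o, hs, z⟩)
  have c2 : ContinuousOn (fun t => H 1 1 t) (Icc 0 1) :=
    cH.comp (f := fun t : ℝ => ((1 : ℝ), (1 : ℝ), t)) (by fun_prop) (fun s hs => ⟨o, o, hs⟩)
  refine bd_of_odd c1 (fun s hs => nH 1 o s hs 0 z (by simp)) c2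
    (fun t ht => nH 1 o 1 o t ht (by simp)) ?_
  intro s _ t _
  simp only [H]
  have e1 : U (1, 1 - s, 1 - t) = W (1, s, t) := by
    simp only [U, W, A, B]
    push_cast
    ring
  have e2 : W (1, 1 - s, 1 - t) = U (1, s, t) := by
    simp only [U, W, A, B]
    push_cast
    ring
  rw [e1, e2]
  ring

/-- An arc near a crossing, in the chart. -/
theorem local_arc {γ : ℝ → ℂ} (hγ : ContinuousOn γ (Icc 0 1)) (iγ : InjOn γ (Icc 0 1)) {s₀ : ℝ}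
    (hs : s₀ ∈ Ioo (0 : ℝ) 1) (φ : OpenPartialHomeomorph ℂ ℂ) (hx : γ s₀ ∈ φ.source)
    (h0 : φ (γ s₀) = 0) (c : ℂ) (q : ℂ → ℝ) (hq : Continuous q) (q0 : q 0 = 0)
    (q1 : ∀ z, |q z| ≤ ‖z‖)
    (hl : ∀ z ∈ φ.source, z ∈ γ '' Icc 0 1 → φ z = (q (φ z) : ℂ) * c) {r : ℝ} (hr : 0 < r) :
    ∃ (s₁ s₂ : ℝ) (a : ℝ → ℝ) (α : ℝ), 0 < s₁ ∧ s₁ < s₀ ∧ s₀ < s₂ ∧ s₂ < 1 ∧
      ContinuousOn a (Icc 0 1) ∧ (∀ s ∈ Icc (0 : ℝ) 1, |a s| < r) ∧
      (∀ s ∈ Icc (0 : ℝ) 1, γ (s₁ + s * (s₂ - s₁)) = φ.symm ((a s : ℂ) * c)) ∧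
      (α = 1 ∨ α = -1) ∧ α * a 0 < 0 ∧ 0 < α * a 1 := by
  have hγ0 : ContinuousAt γ s₀ := hγ.continuousAt (Icc_mem_nhds hs.1 hs.2)
  have hφγ : ContinuousAt (fun s => φ (γ s)) s₀ := (φ.continuousAt hx).comp hγ0
  have e1 : ∀ᶠ s in nhds s₀, γ s ∈ φ.source := hγ0.eventually_mem (φ.open_source.mem_nhds hx)
  have e2 : ∀ᶠ s in nhds s₀, φ (γ s) ∈ Metric.ball (0 : ℂ) r := by
    apply hφγ.eventually_mem
    rw [h0]
    exact Metric.ball_mem_nhds 0 hr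
  have e3 : ∀ᶠ s in nhds s₀, s ∈ Ioo (0 : ℝ) 1 := Ioo_mem_nhds hs.1 hs.2
  obtain ⟨η, hη, hball⟩ := Metric.nhds_basis_closedBall.mem_iff.1 (e1.and (e2.and e3))
  have hball' : ∀ s, s₀ - η ≤ s → s ≤ s₀ + η →
      γ s ∈ φ.source ∧ ‖φ (γ s)‖ < r ∧ s ∈ Ioo (0 : ℝ) 1 := by
    intro s h1 h2
    have hmem : s ∈ Metric.closedBall s₀ η := by
      rw [Metric.mem_closedBall, Real.dist_eq, abs_le]
      constructor <;> linarith
    have := hball hmem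
    exact ⟨this.1, mem_ball_zero_iff.1 this.2.1, this.2.2⟩
  have m1 := (hball' (s₀ - η) le_rfl (by linarith)).2.2
  have m2 := (hball' (s₀ + η) (by linarith) le_rfl).2.2
  let l : ℝ → ℝ := fun s => (s₀ - η) + s * ((s₀ + η) - (s₀ - η))
  have hl1 : ∀ s ∈ Icc (0 : ℝ) 1, s₀ - η ≤ l s ∧ l s ≤ s₀ + η := by
    intro s hs
    have h1 : 0 ≤ s * η := mul_nonneg hs.1 hη.le
    have h2 : s * η ≤ 1 * η := mul_le_mul_of_nonneg_right hs.2 hη.le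
    simp only [l]
    constructor <;> linarith
  have hl2 : ∀ s ∈ Icc (0 : ℝ) 1, l s ∈ Icc (0 : ℝ) 1 := fun s hs => by
    have h1 := hl1 s hs
    exact ⟨by linarith [m1.1], by linarith [m2.2]⟩
  have hlφ : ∀ s ∈ Icc (0 : ℝ) 1, φ (γ (l s)) = (q (φ (γ (l s))) : ℂ) * c := fun s hs =>
    hl _ (hball' _ (hl1 s hs).1 (hl1 s hs).2).1 ⟨l s, hl2 s hs, rfl⟩
  let a : ℝ → ℝ := fun s => q (φ (γ (l s)))
  have ca : ContinuousOn a (Icc 0 1) := by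
    refine hq.comp_continuousOn ?_
    refine φ.continuousOn.comp ?_ (fun s hs => (hball' _ (hl1 s hs).1 (hl1 s hs).2).1)
    exact hγ.comp (f := l) (by fun_prop) hl2
  have ia : InjOn a (Icc 0 1) := by
    intro s hs s' hs' h
    have h1 : φ (γ (l s)) = φ (γ (l s')) := by
      rw [hlφ s hs, hlφ s' hs']
      simp only [a] at h
      rw [h]
    have h2 : γ (l s) = γ (l s') := φ.injOn (hball' _ (hl1 s hs).1 (hl1 s hs).2).1
      (hball' _ (hl1 s' hs').1 (hl1 s' hs').2).1 h1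
    have h3 : l s = l s' := iγ (hl2 s hs) (hl2 s' hs') h2
    simp only [l] at h3
    have h4 : (s - s') * (2 * η) = 0 := by linarith
    rcases mul_eq_zero.1 h4 with h5 | h5
    · linarith
    · linarith
  have ah : a (1 / 2) = 0 := by
    have : l (1 / 2) = s₀ := by simp only [l]; ring
    simp only [a]
    rw [this, h0, q0]
  have half : (1 / 2 : ℝ) ∈ Icc (0 : ℝ) 1 := ⟨by norm_num, by norm_num⟩
  have z : (0 : ℝ) ∈ Icc (0 : ℝ) 1 := ⟨le_rfl, zero_le_one⟩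
  have o : (1 : ℝ) ∈ Icc (0 : ℝ) 1 := ⟨zero_le_one, le_rfl⟩
  have main : ∃ α : ℝ, (α = 1 ∨ α = -1) ∧ α * a 0 < 0 ∧ 0 < α * a 1 := by
    rcases ca.strictMonoOn_of_injOn_Icc' zero_le_one ia with hm | hm
    · refine ⟨1, Or.inl rfl, ?_, ?_⟩
      · have := hm z half (by norm_num); linarith
      · have := hm half o (by norm_num); linarith
    · refine ⟨-1, Or.inr rfl, ?_, ?_⟩
      · have := hm z half (by norm_num); linarith
      · have := hm half o (by norm_num); linarith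
  obtain ⟨α, hα, k0, k1⟩ := main
  refine ⟨s₀ - η, s₀ + η, a, α, m1.1, by linarith, by linarith, m2.2, ca, ?_, ?_, hα, k0, k1⟩
  · intro s hs
    exact lt_of_le_of_lt (q1 _) (hball' _ (hl1 s hs).1 (hl1 s hs).2).2.1
  · intro s hs
    have h1 := hlφ s hs
    have h2 := φ.left_inv (hball' _ (hl1 s hs).1 (hl1 s hs).2).1
    rw [h1] at h2
    exact h2.symm

theorem mix_mem {τ s s₁ s₂ : ℝ} (hτ : τ ∈ Icc (0 : ℝ) 1) (hs : s ∈ Icc (0 : ℝ) 1) (h1 : 0 < s₁)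
    (h12 : s₁ < s₂) (h2 : s₂ < 1) : (1 - τ) * s + τ * (s₁ + s * (s₂ - s₁)) ∈ Icc (0 : ℝ) 1 := by
  obtain ⟨t0, t1⟩ := hτ
  obtain ⟨s0, s1⟩ := hs
  have a1 : 0 ≤ s * (s₂ - s₁) := mul_nonneg s0 (by linarith)
  have a2 : s * (s₂ - s₁) ≤ 1 * (s₂ - s₁) := mul_le_mul_of_nonneg_right s1 (by linarith)
  have b0 : 0 ≤ (1 - τ) * s := mul_nonneg (by linarith) s0
  have b1 : (1 - τ) * s ≤ (1 - τ) * 1 := mul_le_mul_of_nonneg_left s1 (by linarith)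
  have c0 : 0 ≤ τ * (s₁ + s * (s₂ - s₁)) := mul_nonneg t0 (by linarith)
  have c1 : τ * (s₁ + s * (s₂ - s₁)) ≤ τ * 1 := mul_le_mul_of_nonneg_left (by linarith) t0
  constructor <;> linarith

theorem mix_ne {τ s s₀ s₁ s₂ : ℝ} (hτ : τ ∈ Icc (0 : ℝ) 1) (h1 : 0 < s₁)
    (h10 : s₁ < s₀) (h02 : s₀ < s₂) (h2 : s₂ < 1) (hs : s = 0 ∨ s = 1) :
    (1 - τ) * s + τ * (s₁ + s * (s₂ - s₁)) ≠ s₀ := by
  obtain ⟨t0, t1⟩ := hτ
  rcases hs with hs | hs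
  · subst hs
    have : τ * s₁ ≤ 1 * s₁ := mul_le_mul_of_nonneg_right t1 h1.le
    intro h
    linarith
  · subst hs
    have : 0 ≤ (1 - τ) * (1 - s₂) := mul_nonneg (by linarith) (by linarith)
    intro h
    nlinarith

end CrossOdd

open CrossOdd in
theorem bd_odd {γ δ : ℝ → ℂ} (hγ : ContinuousOn γ (Icc 0 1)) (hδ : ContinuousOn δ (Icc 0 1))
    (iγ : InjOn γ (Icc 0 1)) (iδ : InjOn δ (Icc 0 1)) {s₀ t₀ : ℝ} (hs : s₀ ∈ Ioo (0 : ℝ) 1)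
    (ht : t₀ ∈ Ioo (0 : ℝ) 1) (h : γ s₀ = δ t₀)
    (huniq : ∀ s ∈ Icc (0 : ℝ) 1, ∀ t ∈ Icc (0 : ℝ) 1, γ s = δ t → s = s₀ ∧ t = t₀)
    (hc : CrossAt (γ '' Icc 0 1) (δ '' Icc 0 1) (γ s₀)) :
    ∃ k : ℤ, bd (fun s t => γ s - δ t) = 2 * k + 1 := by
  obtain ⟨φ, hx, h0, hA, hB⟩ := hc
  obtain ⟨R, hR, hRt⟩ := Metric.isOpen_iff.1 φ.open_target 0 (by rw [← h0]; exact φ.map_source hx)
  obtain ⟨r, hr, hrR⟩ : ∃ r : ℝ, 0 < r ∧ 4 * r = R := ⟨R / 4, by linarith, by ring⟩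
  subst hrR
  obtain ⟨s₁, s₂, a, α, k1, k2, k3, k4, ca, ba, ea, hα, a0, a1⟩ := local_arc hγ iγ hs φ hx h0 1
    Complex.re Complex.continuous_re Complex.zero_re Complex.abs_re_le_norm
    (fun z hz hz' => by
      rw [mul_one]
      exact Complex.ext rfl (by rw [(hA z hz).1 hz']; simp)) hr
  obtain ⟨t₁, t₂, b, β, l1, l2, l3, l4, cb, bb, eb, hβ, b0, b1⟩ := local_arc hδ iδ ht φ
    (by rw [← h]; exact hx) (by rw [← h]; exact h0) Complex.I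
    Complex.im Complex.continuous_im Complex.zero_im Complex.abs_im_le_norm
    (fun z hz hz' => by
      have := (hB z hz).1 hz'
      apply Complex.ext
      · rw [this]; simp
      · simp) hr
  let H : ℝ → ℝ → ℝ → ℂ := fun τ s t => γ ((1 - τ) * s + τ * (s₁ + s * (s₂ - s₁))) -
    δ ((1 - τ) * t + τ * (t₁ + t * (t₂ - t₁)))
  have cH : ContinuousOn (fun p : ℝ × ℝ × ℝ => H p.1 p.2.1 p.2.2)
      (Icc 0 1 ×ˢ Icc 0 1 ×ˢ Icc 0 1) := by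
    refine ContinuousOn.sub ?_ ?_
    · exact hγ.comp (f := fun p : ℝ × ℝ × ℝ =>
        (1 - p.1) * p.2.1 + p.1 * (s₁ + p.2.1 * (s₂ - s₁))) (by fun_prop)
        (fun p hp => mix_mem hp.1 hp.2.1 k1 (k2.trans k3) k4)
    · exact hδ.comp (f := fun p : ℝ × ℝ × ℝ =>
        (1 - p.1) * p.2.2 + p.1 * (t₁ + p.2.2 * (t₂ - t₁))) (by fun_prop)
        (fun p hp => mix_mem hp.1 hp.2.2 l1 (l2.trans l3) l4)
  have key := bd_homotopy cH (by
    intro τ hτ s hs' t ht' hb h0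
    have h1 := huniq _ (mix_mem hτ hs' k1 (k2.trans k3) k4) _
      (mix_mem hτ ht' l1 (l2.trans l3) l4) (sub_eq_zero.1 h0)
    rcases hb with hb | hb | hb | hb
    · exact mix_ne hτ k1 k2 k3 k4 (Or.inl hb) h1.1
    · exact mix_ne hτ k1 k2 k3 k4 (Or.inr hb) h1.1
    · exact mix_ne hτ l1 l2 l3 l4 (Or.inl hb) h1.2
    · exact mix_ne hτ l1 l2 l3 l4 (Or.inr hb) h1.2)
  have e0 : bd (H 0) = bd (fun s t => γ s - δ t) := by
    refine bd_congr (fun s _ t _ => ?_)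
    simp only [H]
    norm_num
  have e1 : bd (H 1) = bd (fun s t => φ.symm ((a s : ℝ) : ℂ) - φ.symm ((b t : ℝ) * Complex.I)) := by
    refine bd_congr (fun s hs t ht => ?_)
    simp only [H]
    have u1 := ea s hs
    have u2 := eb t ht
    rw [mul_one] at u1
    rw [← u1, ← u2]
    norm_num
  rw [← e0, key, e1]
  exact bd_local hr (φ.continuousOn_symm.mono hRt) (φ.symm.injOn.mono hRt) ca cb ba bb hα hβ a0 a1
    b0 b1

end Pool.Agent.MP_4b7180_co
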