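import Mathlib

/-! Five pairwise different vertices, cyclically adjacent, form a cycle of length five. -/

namespace Pool.Agent.MP_4b7180_co

theorem exists_cycle_five {W : Type*} (H : SimpleGraph W) {a b c d e : W} (hab : H.Adj a b)
    (hbc : H.Adj b c) (hcd : H.Adj c d) (hde : H.Adj d e) (hea : H.Adj e a)
    (hac : a ≠ c) (had : a ≠ d) (hbd : b ≠ d) (hbe : b ≠ e) (hce : c ≠ e) :
    ∃ w : H.Walk a a, w.IsCycle ∧ w.length = 5 := by
  refine ⟨.cons hab (.cons hbc (.cons hcd (.cons hde (.cons hea .nil)))), ?_, rfl⟩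
  rw [SimpleGraph.Walk.cons_isCycle_iff]
  have := hab.ne
  have := hbc.ne
  have := hcd.ne
  have := hde.ne
  have := hea.ne
  constructor
  · simp only [SimpleGraph.Walk.cons_isPath_iff, SimpleGraph.Walk.isPath_iff_nil, SimpleGraph.Walk.nil_nil,
      SimpleGraph.Walk.support_cons, SimpleGraph.Walk.support_nil, List.mem_cons,
      List.not_mem_nil, or_false, not_or, true_and]
    tauto
  · simp only [SimpleGraph.Walk.edges_cons, SimpleGraph.Walk.edges_nil, List.mem_cons,
      List.not_mem_nil, or_false, not_or, Sym2.eq_iff, not_and]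
    tauto

end Pool.Agent.MP_4b7180_co
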