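import Mathlib

/-!
# Strongly fan-planar drawings (problem MP_4b7180_co): definitions

Drawings are in the plane `ℂ`; edges are arbitrary simple (topological) arcs.
-/

namespace Pool.Agent.MP_4b7180_co

open Set

/-- `A` is (the trace of) a simple arc with endpoints `p` and `q`. -/
def IsArc (A : Set ℂ) (p q : ℂ) : Prop :=
  ∃ γ : Path p q, Function.Injective γ ∧ Set.range γ = A

/-- `A` and `B` cross at `x`: in a suitable local chart of the plane around `x` the set `A` is the
real axis and the set `B` is the imaginary axis. -/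
def CrossAt (A B : Set ℂ) (x : ℂ) : Prop :=
  ∃ φ : OpenPartialHomeomorph ℂ ℂ, x ∈ φ.source ∧ φ x = 0 ∧
    (∀ z ∈ φ.source, (z ∈ A ↔ (φ z).im = 0)) ∧ ∀ z ∈ φ.source, (z ∈ B ↔ (φ z).re = 0)

/-- Two edges are independent if they have no common endpoint. -/
def Indep {V : Type*} (e f : Sym2 V) : Prop := ∀ v, ¬ (v ∈ e ∧ v ∈ f)

/-- A drawing of the graph `G` in the plane: vertices are distinct points, the edge `uv` is a
simple arc from the point of `u` to the point of `v`, and no edge passes through a vertex that is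
not one of its two endpoints. -/
structure Drawing {V : Type*} (G : SimpleGraph V) where
  pt : V → ℂ
  arc : Sym2 V → Set ℂ
  pt_injective : Function.Injective pt
  isArc : ∀ u v, G.Adj u v → IsArc (arc s(u, v)) (pt u) (pt v)
  mem_of_pt_mem : ∀ e ∈ G.edgeSet, ∀ w, pt w ∈ arc e → w ∈ e

namespace Drawing

variable {V : Type*} {G : SimpleGraph V}

/-- The drawing is simple: adjacent edges have only their common endpoint in common (in particular
they never cross), independent edges have at most one point in common and cross there, and no point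
is a crossing of two different pairs of edges. -/
structure IsSimple (D : Drawing G) : Prop where
  adjacent : ∀ e ∈ G.edgeSet, ∀ f ∈ G.edgeSet, e ≠ f → ∀ v, v ∈ e → v ∈ f →
    D.arc e ∩ D.arc f = {D.pt v}
  once : ∀ e ∈ G.edgeSet, ∀ f ∈ G.edgeSet, Indep e f → (D.arc e ∩ D.arc f).Subsingleton
  crossAt : ∀ e ∈ G.edgeSet, ∀ f ∈ G.edgeSet, Indep e f → ∀ x ∈ D.arc e ∩ D.arc f,
    CrossAt (D.arc e) (D.arc f) x
  no_multiple : ∀ e ∈ G.edgeSet, ∀ f ∈ G.edgeSet, Indep e f →
    ∀ e' ∈ G.edgeSet, ∀ f' ∈ G.edgeSet, Indep e' f' →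
    ∀ x, x ∈ D.arc e → x ∈ D.arc f → x ∈ D.arc e' → x ∈ D.arc f' → s(e, f) = s(e', f')

/-- Two edges of `G` cross in the drawing: they are independent and have a common point. -/
def Crosses (D : Drawing G) (e f : Sym2 V) : Prop :=
  e ∈ G.edgeSet ∧ f ∈ G.edgeSet ∧ Indep e f ∧ (D.arc e ∩ D.arc f).Nonempty

theorem Crosses.symm {D : Drawing G} {e f : Sym2 V} (h : D.Crosses e f) : D.Crosses f e :=
  ⟨h.2.1, h.1, fun v hv => h.2.2.1 v hv.symm, by rw [Set.inter_comm]; exact h.2.2.2⟩

theorem Crosses.irrefl {D : Drawing G} {e : Sym2 V} (h : D.Crosses e e) : False := by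
  induction e using Sym2.ind with
  | _ u v => exact h.2.2.1 u ⟨Sym2.mem_mk_left _ _, Sym2.mem_mk_left _ _⟩

/-- The drawing is strongly fan-planar: it is simple, the edges crossing a given edge `e` have a
common endpoint, and if `f`, `g` cross `e` in `p`, `q` and `v` is the common endpoint of `f` and
`g`, then both endpoints of `e` lie in the unbounded component of the complement of the closed
curve formed by the part `A` of `f` from `v` to `p`, the part `B` of `e` from `p` to `q` and the
part `C` of `g` from `q` to `v`. -/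
structure IsStronglyFanPlanar (D : Drawing G) : Prop where
  simple : D.IsSimple
  fan : ∀ e, ∃ v, ∀ f, D.Crosses e f → v ∈ f
  enclosed : ∀ e f g, D.Crosses e f → D.Crosses e g → f ≠ g → ∀ v, v ∈ f → v ∈ g →
    ∀ p q, p ∈ D.arc e → p ∈ D.arc f → q ∈ D.arc e → q ∈ D.arc g →
    ∀ A B C : Set ℂ, A ⊆ D.arc f → IsArc A (D.pt v) p → B ⊆ D.arc e → IsArc B p q →
      C ⊆ D.arc g → IsArc C q (D.pt v) →
    ∀ u, u ∈ e → D.pt u ∈ (A ∪ B ∪ C)ᶜ ∧
      ¬ Bornology.IsBounded (connectedComponentIn (A ∪ B ∪ C)ᶜ (D.pt u))

/-- The intersection graph of a drawing: its vertices are the edges of `G`, two of them being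
adjacent when the corresponding edges cross. -/
def crossingGraph (D : Drawing G) : SimpleGraph G.edgeSet where
  Adj e f := D.Crosses e f
  symm := ⟨fun _ _ h => h.symm⟩
  loopless := ⟨fun _ h => h.irrefl⟩

/-- The crossing number mod 2 of a pair of edges in a drawing (used for independent edges). -/
noncomputable def cr (D : Drawing G) (e f : Sym2 V) : ZMod 2 := by
  classical exact if D.Crosses e f then 1 else 0

end Drawing

/-- The ten edges of the wheel with hub `0` and rim `1, 2, 3, 4, 5`. -/
def wheel : List (ℕ × ℕ) :=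
  [(0, 1), (0, 2), (0, 3), (0, 4), (0, 5), (1, 2), (2, 3), (3, 4), (4, 5), (1, 5)]

/-- The two ends of the wheel edge number `w`. -/
def wheelEnds (w : ℕ) : ℕ × ℕ := wheel.getD w (0, 0)

/-- Adjacency of the graph `GG`: vertices `0, ..., 5` form a `K_6`; for the wheel edge number
`w < 10`, the five vertices `6 + 5 w + k`, `k < 5`, form together with the two ends of the wheel
edge a `K_7`. -/
def adjB (u v : ℕ) : Bool :=
  if u < 6 then
    if v < 6 then u != v
    else u == (wheelEnds ((v - 6) / 5)).1 || u == (wheelEnds ((v - 6) / 5)).2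
  else
    if v < 6 then v == (wheelEnds ((u - 6) / 5)).1 || v == (wheelEnds ((u - 6) / 5)).2
    else (u - 6) / 5 == (v - 6) / 5 && u != v

/-- The graph: a `K_6` with a `K_7` glued on each of its ten wheel edges. -/
def GG : SimpleGraph (Fin 56) where
  Adj u v := adjB u v = true
  symm := ⟨fun u v h => by
    unfold adjB at h ⊢
    by_cases hu : (u : ℕ) < 6 <;> by_cases hv : (v : ℕ) < 6 <;> simp [hu, hv] at h ⊢
    · exact fun h' => h h'.symm
    · exact h
    · exact h
    · exact ⟨h.1.symm, fun h' => h.2 h'.symm⟩⟩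
  loopless := ⟨fun u h => by
    unfold adjB at h
    by_cases hu : (u : ℕ) < 6 <;> simp [hu] at h⟩

instance : DecidableRel GG.Adj := fun u v => inferInstanceAs (Decidable (adjB u v = true))

end Pool.Agent.MP_4b7180_co
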