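import Pool.Agent.MP_4b7180_co.Straight

/-!
# The explicit straight-line drawing of `GG`

Integer coordinates; everything is checked by kernel computation with natural numbers.
-/

namespace Pool.Agent.MP_4b7180_co

open Set

namespace Explicit

/-- An edge `u v` (with `u < v`), a common endpoint `w` of the edges crossing it and the coordinates
of its two ends. -/
structure Ed where
  u : ℕ
  v : ℕ
  w : ℕ
  xu : ℕ
  yu : ℕ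
  xv : ℕ
  yv : ℕ

def pts : List (ℕ × ℕ) :=
  [(420, 875), (0, 35), (840, 35), (630, 245), (420, 315), (210, 245), (182, 476), (190, 470), (146, 338), (232, 521), (266, 578), (658, 476), (650, 470), (694, 338), (608, 521), (574, 578), (567, 574), (555, 570), (561, 472), (522, 609), (501, 652), (441, 609), (435, 605), (423, 517), (426, 639), (423, 677), (357, 567), (345, 565), (291, 471), (342, 607), (351, 651), (427, 0), (425, 10), (541, 30), (362, 25), (301, 30), (749, 161), (745, 155), (707, 173), (754, 131), (767, 113), (539, 315), (535, 305), (497, 295), (544, 285), (557, 275), (301, 322), (305, 310), (283, 276), (326, 297), (343, 296), (98, 168), (100, 160), (74, 114), (118, 163), (134, 174)]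

def EC : List Ed :=
  [⟨0, 1, 0, 420, 875, 0, 35⟩,
   ⟨0, 2, 0, 420, 875, 840, 35⟩,
   ⟨0, 3, 0, 420, 875, 630, 245⟩,
   ⟨0, 4, 0, 420, 875, 420, 315⟩,
   ⟨0, 5, 0, 420, 875, 210, 245⟩,
   ⟨0, 6, 0, 420, 875, 182, 476⟩,
   ⟨0, 7, 6, 420, 875, 190, 470⟩,
   ⟨0, 8, 1, 420, 875, 146, 338⟩,
   ⟨0, 9, 10, 420, 875, 232, 521⟩,
   ⟨0, 10, 0, 420, 875, 266, 578⟩,
   ⟨0, 11, 0, 420, 875, 658, 476⟩,
   ⟨0, 12, 11, 420, 875, 650, 470⟩,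
   ⟨0, 13, 2, 420, 875, 694, 338⟩,
   ⟨0, 14, 15, 420, 875, 608, 521⟩,
   ⟨0, 15, 0, 420, 875, 574, 578⟩,
   ⟨0, 16, 0, 420, 875, 567, 574⟩,
   ⟨0, 17, 16, 420, 875, 555, 570⟩,
   ⟨0, 18, 3, 420, 875, 561, 472⟩,
   ⟨0, 19, 20, 420, 875, 522, 609⟩,
   ⟨0, 20, 0, 420, 875, 501, 652⟩,
   ⟨0, 21, 0, 420, 875, 441, 609⟩,
   ⟨0, 22, 21, 420, 875, 435, 605⟩,
   ⟨0, 23, 4, 420, 875, 423, 517⟩,
   ⟨0, 24, 25, 420, 875, 426, 639⟩,
   ⟨0, 25, 0, 420, 875, 423, 677⟩,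
   ⟨0, 26, 0, 420, 875, 357, 567⟩,
   ⟨0, 27, 26, 420, 875, 345, 565⟩,
   ⟨0, 28, 5, 420, 875, 291, 471⟩,
   ⟨0, 29, 30, 420, 875, 342, 607⟩,
   ⟨0, 30, 0, 420, 875, 351, 651⟩,
   ⟨1, 2, 0, 0, 35, 840, 35⟩,
   ⟨1, 3, 2, 0, 35, 630, 245⟩,
   ⟨1, 4, 5, 0, 35, 420, 315⟩,
   ⟨1, 5, 0, 0, 35, 210, 245⟩,
   ⟨1, 6, 0, 0, 35, 182, 476⟩,
   ⟨1, 7, 6, 0, 35, 190, 470⟩,
   ⟨1, 8, 0, 0, 35, 146, 338⟩,
   ⟨1, 9, 8, 0, 35, 232, 521⟩,
   ⟨1, 10, 0, 0, 35, 266, 578⟩,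
   ⟨1, 31, 0, 0, 35, 427, 0⟩,
   ⟨1, 32, 31, 0, 35, 425, 10⟩,
   ⟨1, 33, 2, 0, 35, 541, 30⟩,
   ⟨1, 34, 35, 0, 35, 362, 25⟩,
   ⟨1, 35, 0, 0, 35, 301, 30⟩,
   ⟨1, 51, 0, 0, 35, 98, 168⟩,
   ⟨1, 52, 51, 0, 35, 100, 160⟩,
   ⟨1, 53, 0, 0, 35, 74, 114⟩,
   ⟨1, 54, 53, 0, 35, 118, 163⟩,
   ⟨1, 55, 5, 0, 35, 134, 174⟩,
   ⟨2, 3, 0, 840, 35, 630, 245⟩,
   ⟨2, 4, 3, 840, 35, 420, 315⟩,
   ⟨2, 5, 1, 840, 35, 210, 245⟩,
   ⟨2, 11, 0, 840, 35, 658, 476⟩,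
   ⟨2, 12, 11, 840, 35, 650, 470⟩,
   ⟨2, 13, 0, 840, 35, 694, 338⟩,
   ⟨2, 14, 13, 840, 35, 608, 521⟩,
   ⟨2, 15, 0, 840, 35, 574, 578⟩,
   ⟨2, 31, 0, 840, 35, 427, 0⟩,
   ⟨2, 32, 31, 840, 35, 425, 10⟩,
   ⟨2, 33, 0, 840, 35, 541, 30⟩,
   ⟨2, 34, 33, 840, 35, 362, 25⟩,
   ⟨2, 35, 1, 840, 35, 301, 30⟩,
   ⟨2, 36, 0, 840, 35, 749, 161⟩,
   ⟨2, 37, 36, 840, 35, 745, 155⟩,
   ⟨2, 38, 3, 840, 35, 707, 173⟩,
   ⟨2, 39, 40, 840, 35, 754, 131⟩,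
   ⟨2, 40, 0, 840, 35, 767, 113⟩,
   ⟨3, 4, 0, 630, 245, 420, 315⟩,
   ⟨3, 5, 4, 630, 245, 210, 245⟩,
   ⟨3, 16, 0, 630, 245, 567, 574⟩,
   ⟨3, 17, 16, 630, 245, 555, 570⟩,
   ⟨3, 18, 0, 630, 245, 561, 472⟩,
   ⟨3, 19, 18, 630, 245, 522, 609⟩,
   ⟨3, 20, 0, 630, 245, 501, 652⟩,
   ⟨3, 36, 0, 630, 245, 749, 161⟩,
   ⟨3, 37, 36, 630, 245, 745, 155⟩,
   ⟨3, 38, 0, 630, 245, 707, 173⟩,
   ⟨3, 39, 38, 630, 245, 754, 131⟩,
   ⟨3, 40, 2, 630, 245, 767, 113⟩,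
   ⟨3, 41, 0, 630, 245, 539, 315⟩,
   ⟨3, 42, 41, 630, 245, 535, 305⟩,
   ⟨3, 43, 4, 630, 245, 497, 295⟩,
   ⟨3, 44, 45, 630, 245, 544, 285⟩,
   ⟨3, 45, 0, 630, 245, 557, 275⟩,
   ⟨4, 5, 0, 420, 315, 210, 245⟩,
   ⟨4, 21, 0, 420, 315, 441, 609⟩,
   ⟨4, 22, 21, 420, 315, 435, 605⟩,
   ⟨4, 23, 0, 420, 315, 423, 517⟩,
   ⟨4, 24, 23, 420, 315, 426, 639⟩,
   ⟨4, 25, 0, 420, 315, 423, 677⟩,
   ⟨4, 41, 0, 420, 315, 539, 315⟩,
   ⟨4, 42, 41, 420, 315, 535, 305⟩,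
   ⟨4, 43, 0, 420, 315, 497, 295⟩,
   ⟨4, 44, 43, 420, 315, 544, 285⟩,
   ⟨4, 45, 3, 420, 315, 557, 275⟩,
   ⟨4, 46, 0, 420, 315, 301, 322⟩,
   ⟨4, 47, 46, 420, 315, 305, 310⟩,
   ⟨4, 48, 5, 420, 315, 283, 276⟩,
   ⟨4, 49, 50, 420, 315, 326, 297⟩,
   ⟨4, 50, 0, 420, 315, 343, 296⟩,
   ⟨5, 26, 0, 210, 245, 357, 567⟩,
   ⟨5, 27, 26, 210, 245, 345, 565⟩,
   ⟨5, 28, 0, 210, 245, 291, 471⟩,
   ⟨5, 29, 28, 210, 245, 342, 607⟩,
   ⟨5, 30, 0, 210, 245, 351, 651⟩,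
   ⟨5, 46, 0, 210, 245, 301, 322⟩,
   ⟨5, 47, 46, 210, 245, 305, 310⟩,
   ⟨5, 48, 0, 210, 245, 283, 276⟩,
   ⟨5, 49, 48, 210, 245, 326, 297⟩,
   ⟨5, 50, 4, 210, 245, 343, 296⟩,
   ⟨5, 51, 0, 210, 245, 98, 168⟩,
   ⟨5, 52, 51, 210, 245, 100, 160⟩,
   ⟨5, 53, 1, 210, 245, 74, 114⟩,
   ⟨5, 54, 55, 210, 245, 118, 163⟩,
   ⟨5, 55, 0, 210, 245, 134, 174⟩,
   ⟨6, 7, 0, 182, 476, 190, 470⟩,
   ⟨6, 8, 1, 182, 476, 146, 338⟩,
   ⟨6, 9, 7, 182, 476, 232, 521⟩,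
   ⟨6, 10, 0, 182, 476, 266, 578⟩,
   ⟨7, 8, 1, 190, 470, 146, 338⟩,
   ⟨7, 9, 0, 190, 470, 232, 521⟩,
   ⟨7, 10, 9, 190, 470, 266, 578⟩,
   ⟨8, 9, 0, 146, 338, 232, 521⟩,
   ⟨8, 10, 0, 146, 338, 266, 578⟩,
   ⟨9, 10, 0, 232, 521, 266, 578⟩,
   ⟨11, 12, 0, 658, 476, 650, 470⟩,
   ⟨11, 13, 2, 658, 476, 694, 338⟩,
   ⟨11, 14, 12, 658, 476, 608, 521⟩,
   ⟨11, 15, 0, 658, 476, 574, 578⟩,
   ⟨12, 13, 2, 650, 470, 694, 338⟩,
   ⟨12, 14, 0, 650, 470, 608, 521⟩,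
   ⟨12, 15, 14, 650, 470, 574, 578⟩,
   ⟨13, 14, 0, 694, 338, 608, 521⟩,
   ⟨13, 15, 0, 694, 338, 574, 578⟩,
   ⟨14, 15, 0, 608, 521, 574, 578⟩,
   ⟨16, 17, 0, 567, 574, 555, 570⟩,
   ⟨16, 18, 3, 567, 574, 561, 472⟩,
   ⟨16, 19, 17, 567, 574, 522, 609⟩,
   ⟨16, 20, 0, 567, 574, 501, 652⟩,
   ⟨17, 18, 3, 555, 570, 561, 472⟩,
   ⟨17, 19, 0, 555, 570, 522, 609⟩,
   ⟨17, 20, 19, 555, 570, 501, 652⟩,
   ⟨18, 19, 0, 561, 472, 522, 609⟩,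
   ⟨18, 20, 0, 561, 472, 501, 652⟩,
   ⟨19, 20, 0, 522, 609, 501, 652⟩,
   ⟨21, 22, 0, 441, 609, 435, 605⟩,
   ⟨21, 23, 4, 441, 609, 423, 517⟩,
   ⟨21, 24, 22, 441, 609, 426, 639⟩,
   ⟨21, 25, 0, 441, 609, 423, 677⟩,
   ⟨22, 23, 4, 435, 605, 423, 517⟩,
   ⟨22, 24, 0, 435, 605, 426, 639⟩,
   ⟨22, 25, 24, 435, 605, 423, 677⟩,
   ⟨23, 24, 0, 423, 517, 426, 639⟩,
   ⟨23, 25, 0, 423, 517, 423, 677⟩,
   ⟨24, 25, 0, 426, 639, 423, 677⟩,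
   ⟨26, 27, 0, 357, 567, 345, 565⟩,
   ⟨26, 28, 5, 357, 567, 291, 471⟩,
   ⟨26, 29, 27, 357, 567, 342, 607⟩,
   ⟨26, 30, 0, 357, 567, 351, 651⟩,
   ⟨27, 28, 5, 345, 565, 291, 471⟩,
   ⟨27, 29, 0, 345, 565, 342, 607⟩,
   ⟨27, 30, 29, 345, 565, 351, 651⟩,
   ⟨28, 29, 0, 291, 471, 342, 607⟩,
   ⟨28, 30, 0, 291, 471, 351, 651⟩,
   ⟨29, 30, 0, 342, 607, 351, 651⟩,
   ⟨31, 32, 0, 427, 0, 425, 10⟩,
   ⟨31, 33, 2, 427, 0, 541, 30⟩,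
   ⟨31, 34, 32, 427, 0, 362, 25⟩,
   ⟨31, 35, 1, 427, 0, 301, 30⟩,
   ⟨32, 33, 2, 425, 10, 541, 30⟩,
   ⟨32, 34, 0, 425, 10, 362, 25⟩,
   ⟨32, 35, 34, 425, 10, 301, 30⟩,
   ⟨33, 34, 0, 541, 30, 362, 25⟩,
   ⟨33, 35, 0, 541, 30, 301, 30⟩,
   ⟨34, 35, 0, 362, 25, 301, 30⟩,
   ⟨36, 37, 0, 749, 161, 745, 155⟩,
   ⟨36, 38, 3, 749, 161, 707, 173⟩,
   ⟨36, 39, 37, 749, 161, 754, 131⟩,
   ⟨36, 40, 2, 749, 161, 767, 113⟩,
   ⟨37, 38, 3, 745, 155, 707, 173⟩,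
   ⟨37, 39, 0, 745, 155, 754, 131⟩,
   ⟨37, 40, 39, 745, 155, 767, 113⟩,
   ⟨38, 39, 0, 707, 173, 754, 131⟩,
   ⟨38, 40, 0, 707, 173, 767, 113⟩,
   ⟨39, 40, 0, 754, 131, 767, 113⟩,
   ⟨41, 42, 0, 539, 315, 535, 305⟩,
   ⟨41, 43, 4, 539, 315, 497, 295⟩,
   ⟨41, 44, 42, 539, 315, 544, 285⟩,
   ⟨41, 45, 3, 539, 315, 557, 275⟩,
   ⟨42, 43, 4, 535, 305, 497, 295⟩,
   ⟨42, 44, 0, 535, 305, 544, 285⟩,
   ⟨42, 45, 44, 535, 305, 557, 275⟩,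
   ⟨43, 44, 0, 497, 295, 544, 285⟩,
   ⟨43, 45, 0, 497, 295, 557, 275⟩,
   ⟨44, 45, 0, 544, 285, 557, 275⟩,
   ⟨46, 47, 0, 301, 322, 305, 310⟩,
   ⟨46, 48, 5, 301, 322, 283, 276⟩,
   ⟨46, 49, 47, 301, 322, 326, 297⟩,
   ⟨46, 50, 4, 301, 322, 343, 296⟩,
   ⟨47, 48, 5, 305, 310, 283, 276⟩,
   ⟨47, 49, 0, 305, 310, 326, 297⟩,
   ⟨47, 50, 49, 305, 310, 343, 296⟩,
   ⟨48, 49, 0, 283, 276, 326, 297⟩,
   ⟨48, 50, 0, 283, 276, 343, 296⟩,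
   ⟨49, 50, 0, 326, 297, 343, 296⟩,
   ⟨51, 52, 0, 98, 168, 100, 160⟩,
   ⟨51, 53, 1, 98, 168, 74, 114⟩,
   ⟨51, 54, 52, 98, 168, 118, 163⟩,
   ⟨51, 55, 5, 98, 168, 134, 174⟩,
   ⟨52, 53, 1, 100, 160, 74, 114⟩,
   ⟨52, 54, 0, 100, 160, 118, 163⟩,
   ⟨52, 55, 54, 100, 160, 134, 174⟩,
   ⟨53, 54, 0, 74, 114, 118, 163⟩,
   ⟨53, 55, 0, 74, 114, 134, 174⟩,
   ⟨54, 55, 0, 118, 163, 134, 174⟩]

/-- Strictly positive orientation of three points. -/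
def pos (xa ya xb yb xc yc : ℕ) : Bool :=
  Nat.blt (xb * ya + xc * yb + xa * yc) (xa * yb + xb * yc + xc * ya)

/-- Strictly negative orientation of three points. -/
def neg (xa ya xb yb xc yc : ℕ) : Bool :=
  Nat.blt (xa * yb + xb * yc + xc * ya) (xb * ya + xc * yb + xa * yc)

/-- The two ends of `f` lie strictly on one side of the line of `e`. -/
def oneSide (e f : Ed) : Bool :=
  (pos e.xu e.yu e.xv e.yv f.xu f.yu && pos e.xu e.yu e.xv e.yv f.xv f.yv) ||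
    (neg e.xu e.yu e.xv e.yv f.xu f.yu && neg e.xu e.yu e.xv e.yv f.xv f.yv)

/-- The check of a pair of edges. -/
def okPair (e f : Ed) : Bool :=
  oneSide e f || oneSide f e || Nat.beq e.w f.u || Nat.beq e.w f.v || Nat.beq e.u f.u ||
    Nat.beq e.u f.v || Nat.beq e.v f.u || Nat.beq e.v f.v

/-- The coordinates. -/
def pt (v : ℕ) : ℕ × ℕ := pts.getD v (0, 0)

theorem check_pairs : (EC.all fun e => EC.all fun f => okPair e f) = true := by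
  decide +kernel

theorem check_coords : (EC.all fun e => (pt e.u).1 == e.xu && (pt e.u).2 == e.yu &&
    (pt e.v).1 == e.xv && (pt e.v).2 == e.yv && Nat.blt e.w 56) = true := by
  decide +kernel

theorem check_edges : ((List.range 56).all fun u => (List.range 56).all fun v =>
    !(adjB u v) || !(Nat.blt u v) || EC.any fun e => Nat.beq e.u u && Nat.beq e.v v) = true := by
  decide +kernel

/-- The list of the points with their numbers. -/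
def ipts : List (ℕ × ℕ × ℕ) := (List.range 56).map fun v => (v, pt v)

theorem check_points : (EC.all fun e => ipts.all fun p =>
    pos e.xu e.yu e.xv e.yv p.2.1 p.2.2 || neg e.xu e.yu e.xv e.yv p.2.1 p.2.2 ||
      Nat.beq p.1 e.u || Nat.beq p.1 e.v) = true := by
  decide +kernel

theorem check_inj : ((List.range 56).all fun u => (List.range 56).all fun v =>
    Nat.beq u v || !(pt u == pt v)) = true := by
  decide +kernel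

/-- The orientation of three points of the plane. -/
def ori (a b c : ℂ) : ℝ :=
  (a.re * b.im + b.re * c.im + c.re * a.im) - (b.re * a.im + c.re * b.im + a.re * c.im)

theorem ori_mem {a b c z t : ℂ} (h : c ∈ segment ℝ z t) :
    ∃ α β : ℝ, 0 ≤ α ∧ 0 ≤ β ∧ α + β = 1 ∧ ori a b c = α * ori a b z + β * ori a b t := by
  obtain ⟨α, β, hα, hβ, hαβ, rfl⟩ := h
  refine ⟨α, β, hα, hβ, hαβ, ?_⟩
  have hβ' : β = 1 - α := by linarith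
  subst hβ'
  simp only [ori, Complex.add_re, Complex.add_im, Complex.real_smul, Complex.mul_re,
    Complex.mul_im, Complex.ofReal_re, Complex.ofReal_im]
  ring

theorem ori_zero {a b c : ℂ} (h : c ∈ segment ℝ a b) : ori a b c = 0 := by
  obtain ⟨α, β, -, -, -, h2⟩ := ori_mem (a := a) (b := b) h
  have e1 : ori a b a = 0 := by simp only [ori]; ring
  have e2 : ori a b b = 0 := by simp only [ori]; ring
  rw [h2, e1, e2]; ring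

theorem not_pos {a b z t x : ℂ} (h1 : x ∈ segment ℝ a b) (h2 : x ∈ segment ℝ z t)
    (h : 0 < ori a b z ∧ 0 < ori a b t) : False := by
  obtain ⟨α, β, hα, hβ, hαβ, h3⟩ := ori_mem (a := a) (b := b) h2
  rw [ori_zero h1] at h3
  rcases hα.lt_or_eq with h4 | h4
  · have := mul_pos h4 h.1
    have := mul_nonneg hβ h.2.le
    linarith
  · have h5 : β = 1 := by linarith
    rw [← h4, h5] at h3
    linarith [h.2]

theorem not_neg {a b z t x : ℂ} (h1 : x ∈ segment ℝ a b) (h2 : x ∈ segment ℝ z t)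
    (h : ori a b z < 0 ∧ ori a b t < 0) : False := by
  obtain ⟨α, β, hα, hβ, hαβ, h3⟩ := ori_mem (a := a) (b := b) h2
  rw [ori_zero h1] at h3
  rcases hα.lt_or_eq with h4 | h4
  · have := mul_pos h4 (neg_pos.2 h.1)
    have := mul_nonneg hβ (neg_pos.2 h.2).le
    linarith
  · have h5 : β = 1 := by linarith
    rw [← h4, h5] at h3
    linarith [h.2]

/-- The point with natural coordinates. -/
noncomputable def cp (p : ℕ × ℕ) : ℂ := ⟨(p.1 : ℝ), (p.2 : ℝ)⟩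

theorem pos_ori {a b c : ℕ × ℕ} (h : pos a.1 a.2 b.1 b.2 c.1 c.2 = true) :
    0 < ori (cp a) (cp b) (cp c) := by
  have h' := h
  unfold pos at h'
  rw [Nat.blt_eq] at h'
  simp only [ori, cp]
  have h2 : ((b.1 * a.2 + c.1 * b.2 + a.1 * c.2 : ℕ) : ℝ) <
    ((a.1 * b.2 + b.1 * c.2 + c.1 * a.2 : ℕ) : ℝ) := by exact_mod_cast h'
  push_cast at h2
  linarith

theorem neg_ori {a b c : ℕ × ℕ} (h : neg a.1 a.2 b.1 b.2 c.1 c.2 = true) :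
    ori (cp a) (cp b) (cp c) < 0 := by
  have h' := h
  unfold neg at h'
  rw [Nat.blt_eq] at h'
  simp only [ori, cp]
  have h2 : ((a.1 * b.2 + b.1 * c.2 + c.1 * a.2 : ℕ) : ℝ) <
    ((b.1 * a.2 + c.1 * b.2 + a.1 * c.2 : ℕ) : ℝ) := by exact_mod_cast h'
  push_cast at h2
  linarith

/-- The position of the vertex number `v`. -/
noncomputable def P (v : ℕ) : ℂ := cp (pt v)

theorem coords {e : Ed} (he : e ∈ EC) : pt e.u = (e.xu, e.yu) ∧ pt e.v = (e.xv, e.yv) ∧ e.w < 56 := by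
  have h := List.all_eq_true.1 check_coords e he
  simp only [Bool.and_eq_true, beq_iff_eq, Nat.blt_eq] at h
  obtain ⟨⟨⟨⟨h1, h2⟩, h3⟩, h4⟩, h5⟩ := h
  exact ⟨Prod.ext h1 h2, Prod.ext h3 h4, h5⟩

theorem exists_ed {u v : ℕ} (hu : u < 56) (hv : v < 56) (h : adjB u v = true) (huv : u < v) :
    ∃ e ∈ EC, e.u = u ∧ e.v = v := by
  have h1 := List.all_eq_true.1 (List.all_eq_true.1 check_edges u (List.mem_range.2 hu)) v
    (List.mem_range.2 hv)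
  rw [h] at h1
  have h2 : Nat.blt u v = true := by rw [Nat.blt_eq]; exact huv
  rw [h2] at h1
  simp only [Bool.not_true, Bool.false_or, Bool.or_false, List.any_eq_true, Bool.and_eq_true,
    Nat.beq_eq] at h1
  obtain ⟨e, he, h3, h4⟩ := h1
  exact ⟨e, he, h3, h4⟩

theorem oneSide_disj {e f : Ed} (he : e ∈ EC) (hf : f ∈ EC) (h : oneSide e f = true) {x : ℂ}
    (h1 : x ∈ segment ℝ (P e.u) (P e.v)) (h2 : x ∈ segment ℝ (P f.u) (P f.v)) : False := by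
  obtain ⟨a1, a2, -⟩ := coords he
  obtain ⟨b1, b2, -⟩ := coords hf
  simp only [oneSide, Bool.or_eq_true, Bool.and_eq_true] at h
  rcases h with ⟨h3, h4⟩ | ⟨h3, h4⟩
  · refine not_pos h1 h2 ⟨?_, ?_⟩
    · unfold P; rw [a1, a2, b1]; exact pos_ori h3
    · unfold P; rw [a1, a2, b2]; exact pos_ori h4
  · refine not_neg h1 h2 ⟨?_, ?_⟩
    · unfold P; rw [a1, a2, b1]; exact neg_ori h3
    · unfold P; rw [a1, a2, b2]; exact neg_ori h4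

theorem pair {e f : Ed} (he : e ∈ EC) (hf : f ∈ EC) {x : ℂ}
    (h1 : x ∈ segment ℝ (P e.u) (P e.v)) (h2 : x ∈ segment ℝ (P f.u) (P f.v))
    (n1 : e.u ≠ f.u) (n2 : e.u ≠ f.v) (n3 : e.v ≠ f.u) (n4 : e.v ≠ f.v) :
    e.w = f.u ∨ e.w = f.v := by
  have h := List.all_eq_true.1 (List.all_eq_true.1 check_pairs e he) f hf
  simp only [okPair, Bool.or_eq_true, Nat.beq_eq] at h
  rcases h with ((((((h | h) | h) | h) | h) | h) | h) | h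
  · exact (oneSide_disj he hf h h1 h2).elim
  · exact (oneSide_disj hf he h h2 h1).elim
  · exact Or.inl h
  · exact Or.inr h
  · exact (n1 h).elim
  · exact (n2 h).elim
  · exact (n3 h).elim
  · exact (n4 h).elim

theorem point {e : Ed} (he : e ∈ EC) {w : ℕ} (hw : w < 56) (h1 : w ≠ e.u) (h2 : w ≠ e.v) :
    P w ∉ segment ℝ (P e.u) (P e.v) := by
  intro hx
  obtain ⟨a1, a2, -⟩ := coords he
  have h := List.all_eq_true.1 (List.all_eq_true.1 check_points e he) (w, pt w)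
    (List.mem_map.2 ⟨w, List.mem_range.2 hw, rfl⟩)
  have h0 := ori_zero hx
  simp only [Bool.or_eq_true, Nat.beq_eq] at h
  rcases h with ((h | h) | h) | h
  · have := pos_ori (a := (e.xu, e.yu)) (b := (e.xv, e.yv)) (c := pt w) h
    rw [← a1, ← a2] at this
    exact absurd h0 (ne_of_gt this)
  · have := neg_ori (a := (e.xu, e.yu)) (b := (e.xv, e.yv)) (c := pt w) h
    rw [← a1, ← a2] at this
    exact absurd h0 (ne_of_lt this)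
  · exact h1 h
  · exact h2 h

theorem inj {u v : ℕ} (hu : u < 56) (hv : v < 56) (h : P u = P v) : u = v := by
  have h1 := List.all_eq_true.1 (List.all_eq_true.1 check_inj u (List.mem_range.2 hu)) v
    (List.mem_range.2 hv)
  by_contra hne
  have h2 : pt u = pt v := by
    have := Complex.ext_iff.1 h
    simp only [P, cp, Nat.cast_inj] at this
    exact Prod.ext this.1 this.2
  have h3 : Nat.beq u v = false := by
    rw [← Bool.not_eq_true, Nat.beq_eq]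
    exact hne
  rw [h3, h2] at h1
  simp at h1

theorem adj_ne {u v : Fin 56} (h : GG.Adj u v) : (u : ℕ) ≠ (v : ℕ) := fun h' =>
  GG.ne_of_adj h (Fin.ext h')

/-- Every edge of `GG` is in the list, in one of the two directions. -/
theorem exists_ed' {u v : Fin 56} (h : GG.Adj u v) :
    ∃ e ∈ EC, (e.u = u ∧ e.v = v) ∨ (e.u = v ∧ e.v = u) := by
  rcases lt_or_gt_of_ne (adj_ne h) with h1 | h1
  · obtain ⟨e, he, h2⟩ := exists_ed u.2 v.2 h h1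
    exact ⟨e, he, Or.inl h2⟩
  · obtain ⟨e, he, h2⟩ := exists_ed v.2 u.2 (GG.adj_symm h) h1
    exact ⟨e, he, Or.inr h2⟩

end Explicit

open Explicit in
theorem exists_drawing : ∃ D : Drawing GG, D.IsStronglyFanPlanar := by
  refine straight (fun v : Fin 56 => P v) ?_ ?_ ?_
  · intro u v h
    exact Fin.ext (inj u.2 v.2 h)
  · intro u v w h hu hv
    obtain ⟨e, he, h2⟩ := exists_ed' h
    have nu : (w : ℕ) ≠ u := fun h' => hu (Fin.ext h')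
    have nv : (w : ℕ) ≠ v := fun h' => hv (Fin.ext h')
    rcases h2 with ⟨h2, h3⟩ | ⟨h2, h3⟩
    · have := point he w.2 (by rw [h2]; exact nu) (by rw [h3]; exact nv)
      rw [h2, h3] at this
      exact this
    · have := point he w.2 (by rw [h2]; exact nv) (by rw [h3]; exact nu)
      rw [h2, h3, segment_symm] at this
      exact this
  · intro u v h
    obtain ⟨e, he, h2⟩ := exists_ed' h
    refine ⟨⟨e.w, (coords he).2.2⟩, ?_⟩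
    intro z t hzt n1 n2 n3 n4 ⟨x, hx1, hx2⟩
    obtain ⟨f, hf, h4⟩ := exists_ed' hzt
    have n1' : (u : ℕ) ≠ z := fun h' => n1 (Fin.ext h'.symm)
    have n2' : (v : ℕ) ≠ z := fun h' => n2 (Fin.ext h'.symm)
    have n3' : (u : ℕ) ≠ t := fun h' => n3 (Fin.ext h'.symm)
    have n4' : (v : ℕ) ≠ t := fun h' => n4 (Fin.ext h'.symm)
    have hx1' : x ∈ segment ℝ (P e.u) (P e.v) := by
      rcases h2 with ⟨h2, h3⟩ | ⟨h2, h3⟩
      · rw [h2, h3]; exact hx1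
      · rw [h2, h3, segment_symm]; exact hx1
    have hx2' : x ∈ segment ℝ (P f.u) (P f.v) := by
      rcases h4 with ⟨h4, h5⟩ | ⟨h4, h5⟩
      · rw [h4, h5]; exact hx2
      · rw [h4, h5, segment_symm]; exact hx2
    have key := pair he hf hx1' hx2' (by rcases h2 with ⟨h2, h3⟩ | ⟨h2, h3⟩ <;>
      rcases h4 with ⟨h4, h5⟩ | ⟨h4, h5⟩ <;> rw [h2, h4] <;> assumption)
      (by rcases h2 with ⟨h2, h3⟩ | ⟨h2, h3⟩ <;>
      rcases h4 with ⟨h4, h5⟩ | ⟨h4, h5⟩ <;> rw [h2, h5] <;> assumption)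
      (by rcases h2 with ⟨h2, h3⟩ | ⟨h2, h3⟩ <;>
      rcases h4 with ⟨h4, h5⟩ | ⟨h4, h5⟩ <;> rw [h3, h4] <;> assumption)
      (by rcases h2 with ⟨h2, h3⟩ | ⟨h2, h3⟩ <;>
      rcases h4 with ⟨h4, h5⟩ | ⟨h4, h5⟩ <;> rw [h3, h5] <;> assumption)
    rcases h4 with ⟨h4, h5⟩ | ⟨h4, h5⟩
    · rcases key with k | k
      · exact Or.inl (Fin.ext (k.trans h4))
      · exact Or.inr (Fin.ext (k.trans h5))
    · rcases key with k | k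
      · exact Or.inr (Fin.ext (k.trans h4))
      · exact Or.inl (Fin.ext (k.trans h5))

end Pool.Agent.MP_4b7180_co
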