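import Pool.Agent.MP_4b7180_co.Core

/-! Module D1 of MP_4b7180_co: crossings mod 2 in simple drawings; fan-planar drawings of `K_7`. -/

namespace Pool.Agent.MP_4b7180_co

namespace K7Aux

variable {V : Type*} {G : SimpleGraph V}

theorem z01 : ∀ x : ZMod 2, x = 0 ∨ x = 1 := by decide

theorem cr_comm (D : Drawing G) (e f : Sym2 V) : D.cr e f = D.cr f e := by
  by_cases h : D.Crosses e f
  · simp [Drawing.cr, h, h.symm]
  · have h' : ¬ D.Crosses f e := fun h' => h h'.symm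
    simp [Drawing.cr, h, h']

theorem cr_one {D : Drawing G} {e f : Sym2 V} (h : D.cr e f = 1) : D.Crosses e f := by
  by_contra hn
  simp [Drawing.cr, hn] at h

theorem cr_of_crosses {D : Drawing G} {e f : Sym2 V} (h : D.Crosses e f) : D.cr e f = 1 := by
  simp [Drawing.cr, h]

theorem cr_zero {D : Drawing G} {e f : Sym2 V} (h : ¬ D.Crosses e f) : D.cr e f = 0 := by
  simp [Drawing.cr, h]

/-- Two disjoint edges never cross the same edge. -/
theorem fan_disj {D : Drawing G} (hf : ∀ e, ∃ v, ∀ f, D.Crosses e f → v ∈ f) {e : Sym2 V}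
    {a b c d : V} (hac : a ≠ c) (had : a ≠ d) (hbc : b ≠ c) (hbd : b ≠ d)
    (h1 : D.cr e s(a, b) = 1) (h2 : D.cr e s(c, d) = 1) : False := by
  obtain ⟨v, hv⟩ := hf e
  have h3 := hv _ (cr_one h1)
  have h4 := hv _ (cr_one h2)
  rw [Sym2.mem_iff] at h3 h4
  rcases h3 with rfl | rfl <;> rcases h4 with h | h <;> contradiction

end K7Aux

open K7Aux

/-- Every `K_5` has an odd number of crossing pairs: in an arbitrary simple drawing. -/
theorem K5_odd {V : Type*} {G : SimpleGraph V} (D : Drawing G) (hD : D.IsSimple)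
    (a b c d e : V) (hab : G.Adj a b) (hac : G.Adj a c) (had : G.Adj a d) (hae : G.Adj a e)
    (hbc : G.Adj b c) (hbd : G.Adj b d) (hbe : G.Adj b e) (hcd : G.Adj c d) (hce : G.Adj c e)
    (hde : G.Adj d e) :
    D.cr s(a, b) s(c, d) + D.cr s(a, c) s(b, d) + D.cr s(a, d) s(b, c)
      + (D.cr s(a, b) s(c, e) + D.cr s(a, c) s(b, e) + D.cr s(a, e) s(b, c))
      + (D.cr s(a, b) s(d, e) + D.cr s(a, d) s(b, e) + D.cr s(a, e) s(b, d))
      + (D.cr s(a, c) s(d, e) + D.cr s(a, d) s(c, e) + D.cr s(a, e) s(c, d))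
      + (D.cr s(b, c) s(d, e) + D.cr s(b, d) s(c, e) + D.cr s(b, e) s(c, d)) = 1 := by
  obtain ⟨m, σ, hσ, H⟩ := core D hD
  have h4 : ∀ a b c d : V, G.Adj a b → G.Adj a c → G.Adj a d → G.Adj b c → G.Adj b d →
      G.Adj c d → D.cr s(a, b) s(c, d) + D.cr s(a, c) s(b, d) + D.cr s(a, d) s(b, c)
        = (m s(a, b) c + m s(a, b) d + m s(c, d) a + m s(c, d) b)
        + (m s(a, c) b + m s(a, c) d + m s(b, d) a + m s(b, d) c)
        + (m s(a, d) b + m s(a, d) c + m s(b, c) a + m s(b, c) d) + 1 := by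
    intro a b c d hab hac had hbc hbd hcd
    rw [H a b c d hab hcd hac.ne had.ne hbc.ne hbd.ne,
      H a c b d hac hbd hab.ne had.ne hbc.ne' hcd.ne,
      H a d b c had hbc hab.ne hac.ne hbd.ne' hcd.ne']
    have e1 := hσ b c hbc.ne
    have e2 := hσ b d hbd.ne
    have e3 := hσ c d hcd.ne
    have h2 : (2 : ZMod 2) = 0 := rfl
    linear_combination e1 + e2 + e3 + (σ a b + σ a c + σ a d + 1) * h2
  rw [h4 a b c d hab hac had hbc hbd hcd, h4 a b c e hab hac hae hbc hbe hce,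
    h4 a b d e hab had hae hbd hbe hde, h4 a c d e hac had hae hcd hce hde,
    h4 b c d e hbc hbd hbe hcd hce hde]
  have h2 : (2 : ZMod 2) = 0 := rfl
  linear_combination (m s(a, b) c + m s(a, b) d + m s(a, b) e + m s(a, c) b + m s(a, c) d
    + m s(a, c) e + m s(a, d) b + m s(a, d) c + m s(a, d) e + m s(a, e) b + m s(a, e) c
    + m s(a, e) d + m s(b, c) a + m s(b, c) d + m s(b, c) e + m s(b, d) a + m s(b, d) c
    + m s(b, d) e + m s(b, e) a + m s(b, e) c + m s(b, e) d + m s(c, d) a + m s(c, d) b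
    + m s(c, d) e + m s(c, e) a + m s(c, e) b + m s(c, e) d + m s(d, e) a + m s(d, e) b
    + m s(d, e) c + 2) * h2

/-- A triangle separates the plane mod 2. -/
theorem triangle_side {V : Type*} {G : SimpleGraph V} (D : Drawing G) (hD : D.IsSimple)
    (a b c : V) (hab : G.Adj a b) (hbc : G.Adj b c) (hac : G.Adj a c) :
    ∃ σ : V → ZMod 2, ∀ u v, G.Adj u v → u ≠ a → u ≠ b → u ≠ c → v ≠ a → v ≠ b → v ≠ c →
      D.cr s(u, v) s(a, b) + D.cr s(u, v) s(b, c) + D.cr s(u, v) s(a, c) = σ u + σ v := by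
  obtain ⟨m, σ, hσ, H⟩ := core D hD
  refine ⟨fun u => m s(a, b) u + m s(b, c) u + m s(a, c) u, ?_⟩
  intro u v huv hua hub huc hva hvb hvc
  rw [H u v a b huv hab hua hub hva hvb, H u v b c huv hbc hub huc hvb hvc,
    H u v a c huv hac hua huc hva hvc]
  have h2 : (2 : ZMod 2) = 0 := rfl
  linear_combination (m s(u, v) a + m s(u, v) b + m s(u, v) c + σ u a + σ u b + σ u c
    + σ v a + σ v b + σ v c) * h2

/-- A 4-cycle separates the plane mod 2. -/
theorem square_side {V : Type*} {G : SimpleGraph V} (D : Drawing G) (hD : D.IsSimple)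
    (a b c d : V) (hab : G.Adj a b) (hbc : G.Adj b c) (hcd : G.Adj c d) (hda : G.Adj d a) :
    ∃ σ : V → ZMod 2, ∀ u v, G.Adj u v → u ≠ a → u ≠ b → u ≠ c → u ≠ d →
      v ≠ a → v ≠ b → v ≠ c → v ≠ d →
      D.cr s(u, v) s(a, b) + D.cr s(u, v) s(b, c) + D.cr s(u, v) s(c, d) + D.cr s(u, v) s(d, a)
        = σ u + σ v := by
  obtain ⟨m, σ, hσ, H⟩ := core D hD
  refine ⟨fun u => m s(a, b) u + m s(b, c) u + m s(c, d) u + m s(d, a) u, ?_⟩
  intro u v huv hua hub huc hud hva hvb hvc hvd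
  rw [H u v a b huv hab hua hub hva hvb, H u v b c huv hbc hub huc hvb hvc,
    H u v c d huv hcd huc hud hvc hvd, H u v d a huv hda hud hua hvd hva]
  have h2 : (2 : ZMod 2) = 0 := rfl
  linear_combination (m s(u, v) a + m s(u, v) b + m s(u, v) c + m s(u, v) d + σ u a + σ u b
    + σ u c + σ u d + σ v a + σ v b + σ v c + σ v d) * h2

namespace K7Aux

variable {V : Type*} {G : SimpleGraph V}

theorem star4 {D : Drawing G} (hD : D.IsSimple) (φ : Fin 7 → V)
    (hφ : ∀ i j, i ≠ j → G.Adj (φ i) (φ j))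
    (hno : ∀ j k l, ¬ D.Crosses s(φ 0, φ j) s(φ k, φ l)) (p q r s : Fin 7)
    (hp : 0 ≠ p) (hq : 0 ≠ q) (hr : 0 ≠ r) (hs : 0 ≠ s) (hpq : p ≠ q) (hpr : p ≠ r)
    (hps : p ≠ s) (hqr : q ≠ r) (hqs : q ≠ s) (hrs : r ≠ s) :
    D.cr s(φ p, φ q) s(φ r, φ s) + D.cr s(φ p, φ r) s(φ q, φ s)
      + D.cr s(φ p, φ s) s(φ q, φ r) = 1 := by
  have h := K5_odd D hD (φ 0) (φ p) (φ q) (φ r) (φ s) (hφ _ _ hp) (hφ _ _ hq) (hφ _ _ hr)
    (hφ _ _ hs) (hφ _ _ hpq) (hφ _ _ hpr) (hφ _ _ hps) (hφ _ _ hqr) (hφ _ _ hqs) (hφ _ _ hrs)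
  have h0 : ∀ j k l, D.cr s(φ 0, φ j) s(φ k, φ l) = 0 := fun j k l => cr_zero (hno j k l)
  simp only [h0, zero_add, add_zero] at h
  exact h

theorem tri5 {D : Drawing G} (hD : D.IsSimple) (φ : Fin 7 → V)
    (hφ : ∀ i j, i ≠ j → G.Adj (φ i) (φ j))
    (hno : ∀ j k l, ¬ D.Crosses s(φ 0, φ j) s(φ k, φ l)) (u v p q r : Fin 7)
    (hp : 0 ≠ p) (hq : 0 ≠ q) (hr : 0 ≠ r) (hu : 0 ≠ u) (hv : 0 ≠ v) (huv : u ≠ v)
    (hpq : p ≠ q) (hpr : p ≠ r) (hqr : q ≠ r) (hup : u ≠ p) (huq : u ≠ q) (hur : u ≠ r)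
    (hvp : v ≠ p) (hvq : v ≠ q) (hvr : v ≠ r) :
    D.cr s(φ u, φ v) s(φ p, φ q) + D.cr s(φ u, φ v) s(φ q, φ r)
      + D.cr s(φ u, φ v) s(φ p, φ r) = 0 := by
  have hne : ∀ i j, i ≠ j → φ i ≠ φ j := fun i j h => (hφ i j h).ne
  obtain ⟨σ, hσ⟩ := triangle_side D hD (φ p) (φ q) (φ r) (hφ _ _ hpq) (hφ _ _ hqr) (hφ _ _ hpr)
  have h1 := hσ (φ u) (φ v) (hφ _ _ huv) (hne _ _ hup) (hne _ _ huq) (hne _ _ hur)
    (hne _ _ hvp) (hne _ _ hvq) (hne _ _ hvr)
  have h2 := hσ (φ 0) (φ u) (hφ _ _ hu) (hne _ _ hp) (hne _ _ hq) (hne _ _ hr)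
    (hne _ _ hup) (hne _ _ huq) (hne _ _ hur)
  have h3 := hσ (φ 0) (φ v) (hφ _ _ hv) (hne _ _ hp) (hne _ _ hq) (hne _ _ hr)
    (hne _ _ hvp) (hne _ _ hvq) (hne _ _ hvr)
  have h0 : ∀ j k l, D.cr s(φ 0, φ j) s(φ k, φ l) = 0 := fun j k l => cr_zero (hno j k l)
  simp only [h0, add_zero] at h2 h3
  have h2' : (2 : ZMod 2) = 0 := rfl
  rw [h1]
  linear_combination -h2 - h3 - (σ (φ 0)) * h2'

theorem claimB {D : Drawing G} (hD : D.IsSimple) (hf : ∀ e, ∃ v, ∀ f, D.Crosses e f → v ∈ f)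
    (φ : Fin 7 → V) (hφ : ∀ i j, i ≠ j → G.Adj (φ i) (φ j))
    (hno : ∀ j k l, ¬ D.Crosses s(φ 0, φ j) s(φ k, φ l))
    (h1 : D.cr s(φ 1, φ 2) s(φ 3, φ 4) = 1) (h2 : D.cr s(φ 1, φ 2) s(φ 3, φ 5) = 1)
    (h3 : D.cr s(φ 1, φ 2) s(φ 3, φ 6) = 1) : False := by
  have hne : ∀ i j, i ≠ j → φ i ≠ φ j := fun i j h => (hφ i j h).ne
  have h := star4 hD φ hφ hno 3 4 5 6 (by decide) (by decide) (by decide) (by decide)
    (by decide) (by decide) (by decide) (by decide) (by decide) (by decide)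
  rw [cr_comm] at h1 h2 h3
  rcases z01 (D.cr s(φ 3, φ 4) s(φ 5, φ 6)) with e1 | e1
  · rcases z01 (D.cr s(φ 3, φ 5) s(φ 4, φ 6)) with e2 | e2
    · rcases z01 (D.cr s(φ 3, φ 6) s(φ 4, φ 5)) with e3 | e3
      · rw [e1, e2, e3] at h
        revert h; decide
      · exact fan_disj hf (hne 1 4 (by decide)) (hne 1 5 (by decide)) (hne 2 4 (by decide))
          (hne 2 5 (by decide)) h3 e3
    · exact fan_disj hf (hne 1 4 (by decide)) (hne 1 6 (by decide)) (hne 2 4 (by decide))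
        (hne 2 6 (by decide)) h2 e2
  · exact fan_disj hf (hne 1 5 (by decide)) (hne 1 6 (by decide)) (hne 2 5 (by decide))
      (hne 2 6 (by decide)) h1 e1

theorem claimA {D : Drawing G} (hD : D.IsSimple) (hf : ∀ e, ∃ v, ∀ f, D.Crosses e f → v ∈ f)
    (φ : Fin 7 → V) (hφ : ∀ i j, i ≠ j → G.Adj (φ i) (φ j))
    (hno : ∀ j k l, ¬ D.Crosses s(φ 0, φ j) s(φ k, φ l))
    (h1 : D.cr s(φ 1, φ 2) s(φ 3, φ 4) = 1) : False := by
  have hne : ∀ i j, i ≠ j → φ i ≠ φ j := fun i j h => (hφ i j h).ne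
  have t5 := tri5 hD φ hφ hno 1 2 3 4 5 (by decide) (by decide) (by decide) (by decide)
    (by decide) (by decide) (by decide) (by decide) (by decide) (by decide) (by decide)
    (by decide) (by decide) (by decide) (by decide)
  have t6 := tri5 hD φ hφ hno 1 2 3 4 6 (by decide) (by decide) (by decide) (by decide)
    (by decide) (by decide) (by decide) (by decide) (by decide) (by decide) (by decide)
    (by decide) (by decide) (by decide) (by decide)
  rw [h1] at t5 t6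
  -- t5 : 1 + cr(12,45) + cr(12,35) = 0, t6 : 1 + cr(12,46) + cr(12,36) = 0
  rcases z01 (D.cr s(φ 1, φ 2) s(φ 3, φ 5)) with e5 | e5
  · have e5' : D.cr s(φ 1, φ 2) s(φ 4, φ 5) = 1 := by
      rcases z01 (D.cr s(φ 1, φ 2) s(φ 4, φ 5)) with e | e
      · rw [e5, e] at t5; exact absurd t5 (by decide)
      · exact e
    have e6 : D.cr s(φ 1, φ 2) s(φ 3, φ 6) = 0 := by
      rcases z01 (D.cr s(φ 1, φ 2) s(φ 3, φ 6)) with e | e
      · exact e
      · exact (fan_disj hf (hne 4 3 (by decide)) (hne 4 6 (by decide)) (hne 5 3 (by decide))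
          (hne 5 6 (by decide)) e5' e).elim
    have e6' : D.cr s(φ 1, φ 2) s(φ 4, φ 6) = 1 := by
      rcases z01 (D.cr s(φ 1, φ 2) s(φ 4, φ 6)) with e | e
      · rw [e6, e] at t6; exact absurd t6 (by decide)
      · exact e
    refine claimB hD hf (φ ∘ ![0, 1, 2, 4, 3, 5, 6]) (fun i j hij => hφ _ _ ?_)
      (fun j k l => hno _ _ _) ?_ e5' e6'
    · revert i j; decide
    · show D.cr s(φ 1, φ 2) s(φ 4, φ 3) = 1
      rw [Sym2.eq_swap (a := φ 4)]; exact h1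
  · have e6 : D.cr s(φ 1, φ 2) s(φ 4, φ 6) = 0 := by
      rcases z01 (D.cr s(φ 1, φ 2) s(φ 4, φ 6)) with e | e
      · exact e
      · exact (fan_disj hf (hne 3 4 (by decide)) (hne 3 6 (by decide)) (hne 5 4 (by decide))
          (hne 5 6 (by decide)) e5 e).elim
    have e6' : D.cr s(φ 1, φ 2) s(φ 3, φ 6) = 1 := by
      rcases z01 (D.cr s(φ 1, φ 2) s(φ 3, φ 6)) with e | e
      · rw [e6, e] at t6; exact absurd t6 (by decide)
      · exact e
    exact claimB hD hf φ hφ hno h1 e5 e6'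

theorem star0 {D : Drawing G} (hD : D.IsSimple) (hf : ∀ e, ∃ v, ∀ f, D.Crosses e f → v ∈ f)
    (φ : Fin 7 → V) (hφ : ∀ i j, i ≠ j → G.Adj (φ i) (φ j))
    (hno : ∀ j k l, ¬ D.Crosses s(φ 0, φ j) s(φ k, φ l)) : False := by
  have h := star4 hD φ hφ hno 1 2 3 4 (by decide) (by decide) (by decide) (by decide)
    (by decide) (by decide) (by decide) (by decide) (by decide) (by decide)
  rcases z01 (D.cr s(φ 1, φ 2) s(φ 3, φ 4)) with e1 | e1
  · rcases z01 (D.cr s(φ 1, φ 3) s(φ 2, φ 4)) with e2 | e2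
    · rcases z01 (D.cr s(φ 1, φ 4) s(φ 2, φ 3)) with e3 | e3
      · rw [e1, e2, e3] at h
        revert h; decide
      · refine claimA hD hf (φ ∘ ![0, 1, 4, 2, 3, 5, 6]) (fun i j hij => hφ _ _ ?_)
          (fun j k l => hno _ _ _) e3
        revert i j; decide
    · refine claimA hD hf (φ ∘ ![0, 1, 3, 2, 4, 5, 6]) (fun i j hij => hφ _ _ ?_)
        (fun j k l => hno _ _ _) e2
      revert i j; decide
  · exact claimA hD hf φ hφ hno e1

end K7Aux

/-- Star lemma: in a fan-planar drawing of `K_7` every vertex has an edge crossed by another edge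
of the `K_7`. -/
theorem star {V : Type*} {G : SimpleGraph V} (D : Drawing G) (hD : D.IsSimple)
    (hf : ∀ e, ∃ v, ∀ f, D.Crosses e f → v ∈ f) (φ : Fin 7 → V)
    (hφ : ∀ i j, i ≠ j → G.Adj (φ i) (φ j)) (i : Fin 7) :
    ∃ j k l, D.Crosses s(φ i, φ j) s(φ k, φ l) := by
  by_contra hn
  push Not at hn
  refine star0 hD hf (φ ∘ Equiv.swap 0 i)
    (fun a b hab => hφ _ _ fun h => hab ((Equiv.swap 0 i).injective h)) ?_
  intro j k l
  have := hn (Equiv.swap 0 i j) (Equiv.swap 0 i k) (Equiv.swap 0 i l)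
  simpa using this

namespace K7Aux

variable {V : Type*} {G : SimpleGraph V}

theorem conn_aux {D : Drawing G} (hD : D.IsSimple) (φ : Fin 7 → V)
    (hφ : ∀ i j, i ≠ j → G.Adj (φ i) (φ j)) (P : Fin 7 → Prop)
    (hno : ∀ i j, P i → ¬ P j → ∀ k l, ¬ D.Crosses s(φ i, φ j) s(φ k, φ l))
    (a b p q r s : Fin 7) (ha : ¬ P a) (hb : ¬ P b) (hab : a ≠ b) (hp : P p) (hq : P q)
    (hr : P r) (hs : P s) (hpq : p ≠ q) (hpr : p ≠ r) (hps : p ≠ s) (hqr : q ≠ r)
    (hqs : q ≠ s) (hrs : r ≠ s) : False := by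
  have hne : ∀ i j, i ≠ j → φ i ≠ φ j := fun i j h => (hφ i j h).ne
  have hPne : ∀ {i j}, ¬ P i → P j → i ≠ j := fun hi hj h => hi (h ▸ hj)
  have z1 : ∀ i j, P i → ¬ P j → ∀ k l, D.cr s(φ i, φ j) s(φ k, φ l) = 0 :=
    fun i j hi hj k l => cr_zero (hno i j hi hj k l)
  have z2 : ∀ i j, P i → ¬ P j → ∀ k l, D.cr s(φ j, φ i) s(φ k, φ l) = 0 := by
    intro i j hi hj k l
    rw [Sym2.eq_swap]; exact z1 i j hi hj k l
  have z3 : ∀ i j, P i → ¬ P j → ∀ k l, D.cr s(φ k, φ l) s(φ i, φ j) = 0 := by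
    intro i j hi hj k l
    rw [cr_comm]; exact z1 i j hi hj k l
  have z4 : ∀ i j, P i → ¬ P j → ∀ k l, D.cr s(φ k, φ l) s(φ j, φ i) = 0 := by
    intro i j hi hj k l
    rw [cr_comm]; exact z2 i j hi hj k l
  -- two disjoint triangles `a u v` and `b w x`
  have key : ∀ u v w x : Fin 7, P u → P v → P w → P x → u ≠ v → w ≠ x → u ≠ w → u ≠ x →
      v ≠ w → v ≠ x → D.cr s(φ u, φ v) s(φ w, φ x) = 0 := by
    intro u v w x hu hv hw hx huv hwx huw hux hvw hvx
    obtain ⟨σ, hσ⟩ := triangle_side D hD (φ a) (φ w) (φ x) (hφ _ _ (hPne ha hw))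
      (hφ _ _ hwx) (hφ _ _ (hPne ha hx))
    have h1 := hσ (φ u) (φ v) (hφ _ _ huv) (hne _ _ (hPne ha hu).symm) (hne _ _ huw)
      (hne _ _ hux) (hne _ _ (hPne ha hv).symm) (hne _ _ hvw) (hne _ _ hvx)
    have h2 := hσ (φ b) (φ u) (hφ _ _ (hPne hb hu)) (hne _ _ hab.symm)
      (hne _ _ (hPne hb hw)) (hne _ _ (hPne hb hx)) (hne _ _ (hPne ha hu).symm) (hne _ _ huw)
      (hne _ _ hux)
    have h3 := hσ (φ b) (φ v) (hφ _ _ (hPne hb hv)) (hne _ _ hab.symm)
      (hne _ _ (hPne hb hw)) (hne _ _ (hPne hb hx)) (hne _ _ (hPne ha hv).symm) (hne _ _ hvw)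
      (hne _ _ hvx)
    rw [z2 u b hu hb, z2 u b hu hb, z2 u b hu hb] at h2
    rw [z2 v b hv hb, z2 v b hv hb, z2 v b hv hb] at h3
    rw [z4 w a hw ha, z4 x a hx ha, zero_add, add_zero] at h1
    have h2' : (2 : ZMod 2) = 0 := rfl
    linear_combination h1 - h2 - h3 - (σ (φ b)) * h2'
  have h := K5_odd D hD (φ a) (φ p) (φ q) (φ r) (φ s) (hφ _ _ (hPne ha hp))
    (hφ _ _ (hPne ha hq)) (hφ _ _ (hPne ha hr)) (hφ _ _ (hPne ha hs)) (hφ _ _ hpq)
    (hφ _ _ hpr) (hφ _ _ hps) (hφ _ _ hqr) (hφ _ _ hqs) (hφ _ _ hrs)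
  rw [key p q r s hp hq hr hs hpq hrs hpr hps hqr hqs,
    key p r q s hp hr hq hs hpr hqs hpq hps hqr.symm hrs,
    key p s q r hp hs hq hr hps hqr hpq hpr hqs.symm hrs.symm] at h
  have za : ∀ u : Fin 7, P u → ∀ k l, D.cr s(φ a, φ u) s(φ k, φ l) = 0 :=
    fun u hu k l => z2 u a hu ha k l
  rw [za p hp, za p hp, za p hp, za q hq, za q hq, za q hq, za r hr, za r hr, za r hr,
    za s hs, za s hs, za s hs] at h
  revert h; decide

end K7Aux

/-- In a fan-planar drawing of `K_7` the crossed edges form a connected spanning graph. -/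
theorem K7_connected {V : Type*} {G : SimpleGraph V} (D : Drawing G) (hD : D.IsSimple)
    (hf : ∀ e, ∃ v, ∀ f, D.Crosses e f → v ∈ f) (φ : Fin 7 → V)
    (hφ : ∀ i j, i ≠ j → G.Adj (φ i) (φ j)) (S : Finset (Fin 7)) (h1 : S.Nonempty)
    (h2 : S ≠ Finset.univ) :
    ∃ i ∈ S, ∃ j, j ∉ S ∧ ∃ k l, D.Crosses s(φ i, φ j) s(φ k, φ l) := by
  by_contra hn
  push Not at hn
  have hne : ∀ {i j : Fin 7} {k l : Fin 7}, D.Crosses s(φ i, φ j) s(φ k, φ l) → i ≠ j := by
    intro i j k l h hij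
    subst hij
    have := h.1
    simp at this
  have hcard : S.card + Sᶜ.card = 7 := by
    rw [Finset.card_add_card_compl]; rfl
  have hS1 : 1 ≤ S.card := Finset.card_pos.2 h1
  have hS2 : 1 ≤ Sᶜ.card := by
    apply Finset.card_pos.2
    rw [Finset.nonempty_iff_ne_empty]
    intro h
    exact h2 ((Finset.compl_eq_empty_iff S).1 h)
  rcases Nat.lt_or_ge 1 S.card with c1 | c1
  · rcases Nat.lt_or_ge 1 Sᶜ.card with c2 | c2
    · rcases Nat.lt_or_ge 3 S.card with c3 | c3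
      · obtain ⟨T, hTS, hT⟩ := Finset.exists_subset_card_eq (n := 4) (s := S) (by omega)
        obtain ⟨U, hUS, hU⟩ := Finset.exists_subset_card_eq (n := 2) (s := Sᶜ) (by omega)
        obtain ⟨p, q, r, s, hpq, hpr, hps, hqr, hqs, hrs, rfl⟩ := Finset.card_eq_four.1 hT
        obtain ⟨a, b, hab, rfl⟩ := Finset.card_eq_two.1 hU
        have hm : ∀ x, x ∈ ({p, q, r, s} : Finset (Fin 7)) → x ∈ S := fun x hx => hTS hx
        have hm' : ∀ x, x ∈ ({a, b} : Finset (Fin 7)) → x ∉ S := fun x hx => by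
          have := hUS hx
          simpa using this
        exact conn_aux hD φ hφ (fun i => i ∈ S) (fun i j hi hj k l => hn i hi j hj k l)
          a b p q r s (hm' a (by simp)) (hm' b (by simp)) hab (hm p (by simp)) (hm q (by simp))
          (hm r (by simp)) (hm s (by simp)) hpq hpr hps hqr hqs hrs
      · obtain ⟨T, hTS, hT⟩ := Finset.exists_subset_card_eq (n := 4) (s := Sᶜ) (by omega)
        obtain ⟨U, hUS, hU⟩ := Finset.exists_subset_card_eq (n := 2) (s := S) (by omega)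
        obtain ⟨p, q, r, s, hpq, hpr, hps, hqr, hqs, hrs, rfl⟩ := Finset.card_eq_four.1 hT
        obtain ⟨a, b, hab, rfl⟩ := Finset.card_eq_two.1 hU
        have hm : ∀ x, x ∈ ({p, q, r, s} : Finset (Fin 7)) → x ∉ S := fun x hx => by
          have := hTS hx
          simpa using this
        have hm' : ∀ x, x ∈ ({a, b} : Finset (Fin 7)) → ¬ x ∉ S := fun x hx => by
          have := hUS hx
          simpa using this
        refine conn_aux hD φ hφ (fun i => i ∉ S) (fun i j hi hj k l => ?_)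
          a b p q r s (hm' a (by simp)) (hm' b (by simp)) hab (hm p (by simp)) (hm q (by simp))
          (hm r (by simp)) (hm s (by simp)) hpq hpr hps hqr hqs hrs
        rw [Sym2.eq_swap (a := φ i)]
        exact hn j (not_not.1 hj) i hi k l
    · have hc : Sᶜ.card = 1 := le_antisymm c2 hS2
      obtain ⟨j, hj⟩ := Finset.card_eq_one.1 hc
      obtain ⟨i, k, l, h⟩ := star D hD hf φ hφ j
      have hjS : j ∉ S := by
        have : j ∈ Sᶜ := by rw [hj]; simp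
        simpa using this
      have hiS : i ∈ S := by
        by_contra hi
        have : i ∈ Sᶜ := by simpa using hi
        rw [hj, Finset.mem_singleton] at this
        exact hne h this.symm
      rw [Sym2.eq_swap (a := φ j)] at h
      exact hn i hiS j hjS k l h
  · have hc : S.card = 1 := le_antisymm c1 hS1
    obtain ⟨i, hi⟩ := Finset.card_eq_one.1 hc
    obtain ⟨j, k, l, h⟩ := star D hD hf φ hφ i
    refine hn i (by rw [hi]; simp) j ?_ k l h
    rw [hi, Finset.mem_singleton]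
    exact fun hji => hne h hji.symm

end Pool.Agent.MP_4b7180_co
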