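import Pool.Agent.MP_4b7180_co.Defs
import Pool.Agent.MP_4b7180_co.K7

/-!
# Module D2: protection of the wheel edges and the pentagram
-/

namespace Pool.Agent.MP_4b7180_co

open Set

namespace PentaAux

variable {V : Type*} {G : SimpleGraph V}

lemma cr_one {D : Drawing G} {e f : Sym2 V} (h : D.Crosses e f) : D.cr e f = 1 := by
  unfold Drawing.cr; rw [if_pos h]

lemma cr_zero {D : Drawing G} {e f : Sym2 V} (h : ¬ D.Crosses e f) : D.cr e f = 0 := by
  unfold Drawing.cr; rw [if_neg h]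

lemma crosses_of_cr {D : Drawing G} {e f : Sym2 V} (h : D.cr e f = 1) : D.Crosses e f := by
  by_contra h1
  rw [cr_zero h1] at h
  exact zero_ne_one h

/-- the side function is constant on a `K_7` if the edges crossed by the `K_7` are not crossed by
the cycle -/
lemma side_const (D : Drawing G) (hD : D.IsSimple)
    (hf : ∀ e, ∃ v, ∀ f, D.Crosses e f → v ∈ f) (φ : Fin 7 → V)
    (hφ : ∀ i j, i ≠ j → G.Adj (φ i) (φ j)) (σ : V → ZMod 2)
    (h : ∀ i j k l, D.Crosses s(φ i, φ j) s(φ k, φ l) → σ (φ i) + σ (φ j) = 0) (i : Fin 7) :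
    σ (φ i) = σ (φ 0) := by
  classical
  by_contra hne
  obtain ⟨i', hi', j, hj, k, l, hc⟩ := K7_connected D hD hf φ hφ
    (Finset.univ.filter fun t => σ (φ t) = σ (φ 0)) ⟨0, by simp⟩
    (fun h1 => hne (by
      have : i ∈ Finset.univ.filter fun t => σ (φ t) = σ (φ 0) := by rw [h1]; simp
      simpa using this))
  have h1 := h i' j k l hc
  simp only [Finset.mem_filter, Finset.mem_univ, true_and] at hi' hj
  apply hj
  have h2 : σ (φ j) = - σ (φ i') := by
    rw [eq_neg_iff_add_eq_zero, add_comm]; exact h1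
  rw [h2, hi']
  exact ZMod.neg_eq_self_mod_two _

/-- one half of `protect` -/
lemma protect_aux (D : Drawing G) (hD : D.IsSimple)
    (hf : ∀ e, ∃ v, ∀ f, D.Crosses e f → v ∈ f) (φ : Fin 7 → V)
    (hφ : ∀ i j, i ≠ j → G.Adj (φ i) (φ j)) (a b a' : V)
    (ψ : Fin 7 → V) (hψ : ∀ i j, i ≠ j → G.Adj (ψ i) (ψ j)) (hψ0 : ψ 0 = a) (hψ1 : ψ 1 = a')
    (hab : G.Adj a b) (hba' : b = a' ∨ G.Adj b a')
    (h1 : ∀ i j, φ i ≠ ψ j) (h2 : ∀ i, φ i ≠ b) (hc : D.Crosses s(φ 0, φ 1) s(a, b))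
    (hz : ∀ f, D.Crosses s(φ 0, φ 1) f → a ∈ f) : False := by
  have hψne : ∀ i j, i ≠ j → ψ i ≠ ψ j := fun i j hij => (hψ i j hij).ne
  have hh1 : ∀ i, φ i ≠ a := fun i => by rw [← hψ0]; exact h1 i 0
  have hh1' : ∀ i, φ i ≠ a' := fun i => by rw [← hψ1]; exact h1 i 1
  have haa' : a ≠ a' := by rw [← hψ0, ← hψ1]; exact hψne 0 1 (by decide)
  -- the claim
  have claim : ∀ j, j ≠ 0 → D.Crosses s(φ 0, φ 1) s(a, ψ j) := by
    intro j hj
    have hy : ∀ i, φ i ≠ ψ j := fun i => h1 i j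
    have hay : a ≠ ψ j := by rw [← hψ0]; exact hψne 0 j (Ne.symm hj)
    have hadj : G.Adj a (ψ j) := by rw [← hψ0]; exact hψ 0 j (Ne.symm hj)
    by_cases hyb : ψ j = b
    · rw [hyb]; exact hc
    apply crosses_of_cr
    have hno : ∀ u v, a ≠ u → a ≠ v → D.cr s(φ 0, φ 1) s(u, v) = 0 := by
      intro u v hu hv
      apply cr_zero
      intro h3
      have := hz _ h3
      rw [Sym2.mem_iff] at this
      rcases this with h4 | h4
      · exact hu h4
      · exact hv h4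
    -- edges of the cycle do not cross the crossed edges of the `K_7`
    have hdis : ∀ i j k l u v, D.Crosses s(φ i, φ j) s(φ k, φ l) →
        (∀ m, φ m ≠ u) → (∀ m, φ m ≠ v) → D.cr s(φ i, φ j) s(u, v) = 0 := by
      intro i j k l u v h3 hu hv
      apply cr_zero
      intro h4
      obtain ⟨w, hw⟩ := hf s(φ i, φ j)
      have h5 := hw _ h3
      have h6 := hw _ h4
      rw [Sym2.mem_iff] at h5 h6
      rcases h6 with rfl | rfl
      · rcases h5 with h5 | h5
        · exact hu k h5.symm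
        · exact hu l h5.symm
      · rcases h5 with h5 | h5
        · exact hv k h5.symm
        · exact hv l h5.symm
    by_cases h3 : b = a' ∨ ψ j = a'
    · -- triangle a b y
      have hby : G.Adj b (ψ j) := by
        rcases h3 with h3 | h3
        · rw [h3, ← hψ1]
          refine hψ 1 j ?_
          rintro rfl
          exact hyb (by rw [hψ1, h3])
        · rw [h3]
          rcases hba' with h4 | h4
          · exact absurd (by rw [h3, h4]) hyb
          · exact h4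
      obtain ⟨σ, hσ⟩ := triangle_side D hD a b (ψ j) hab hby hadj
      have hs : ∀ k l, G.Adj (φ k) (φ l) → D.cr s(φ k, φ l) s(a, b) +
          D.cr s(φ k, φ l) s(b, ψ j) + D.cr s(φ k, φ l) s(a, ψ j) = σ (φ k) + σ (φ l) :=
        fun k l hkl => hσ _ _ hkl (hh1 _) (h2 _) (hy _) (hh1 _) (h2 _) (hy _)
      have h01 := hs 0 1 (hφ 0 1 (by decide))
      rw [side_const D hD hf φ hφ σ (fun i j k l hcr => by
        rw [← hs i j hcr.1, hdis i j k l _ _ hcr hh1 h2, hdis i j k l _ _ hcr h2 hy,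
          hdis i j k l _ _ hcr hh1 hy]; rfl) 1, cr_one hc, hno _ _ hab.ne hay, add_zero,
          CharTwo.add_self_eq_zero] at h01
      have : D.cr s(φ 0, φ 1) s(a, ψ j) = - 1 := by
        rw [eq_neg_iff_add_eq_zero, add_comm]; exact h01
      rw [this]; rfl
    · -- quadrilateral a b a' y
      push Not at h3
      obtain ⟨h3, h4⟩ := h3
      have hba : G.Adj b a' := by
        rcases hba' with h5 | h5
        · exact absurd h5 h3
        · exact h5
      have hay' : G.Adj a' (ψ j) := by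
        rw [← hψ1]
        refine hψ 1 j ?_
        rintro rfl
        exact h4 hψ1
      obtain ⟨σ, hσ⟩ := square_side D hD a b a' (ψ j) hab hba hay' hadj.symm
      have hs : ∀ k l, G.Adj (φ k) (φ l) → D.cr s(φ k, φ l) s(a, b) +
          D.cr s(φ k, φ l) s(b, a') + D.cr s(φ k, φ l) s(a', ψ j) +
          D.cr s(φ k, φ l) s(ψ j, a) = σ (φ k) + σ (φ l) :=
        fun k l hkl => hσ _ _ hkl (hh1 _) (h2 _) (hh1' _) (hy _) (hh1 _) (h2 _) (hh1' _) (hy _)
      have h01 := hs 0 1 (hφ 0 1 (by decide))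
      rw [side_const D hD hf φ hφ σ (fun i j k l hcr => by
        rw [← hs i j hcr.1, hdis i j k l _ _ hcr hh1 h2, hdis i j k l _ _ hcr h2 hh1',
          hdis i j k l _ _ hcr hh1' hy, hdis i j k l _ _ hcr hy hh1]; rfl) 1, cr_one hc,
          hno _ _ hab.ne haa', hno _ _ haa' hay, add_zero, add_zero,
          CharTwo.add_self_eq_zero, Sym2.eq_swap (a := ψ j)] at h01
      have : D.cr s(φ 0, φ 1) s(a, ψ j) = - 1 := by
        rw [eq_neg_iff_add_eq_zero, add_comm]; exact h01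
      rw [this]; rfl
  -- conclusion
  obtain ⟨j, k, l, hjkl⟩ := star D hD hf ψ hψ 0
  have hj : j ≠ 0 := by
    rintro rfl
    have := hjkl.1
    rw [SimpleGraph.mem_edgeSet] at this
    exact this.ne rfl
  have h3 := claim j hj
  rw [← hψ0] at h3
  obtain ⟨w, hw⟩ := hf s(ψ 0, ψ j)
  have h5 := hw _ hjkl
  have h6 := hw _ h3.symm
  rw [Sym2.mem_iff] at h5 h6
  rcases h6 with rfl | rfl
  · rcases h5 with h5 | h5
    · exact h1 _ _ h5
    · exact h1 _ _ h5
  · rcases h5 with h5 | h5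
    · exact h1 _ _ h5
    · exact h1 _ _ h5

end PentaAux

open PentaAux

/-- Protection: the `K_7` given by `φ` protects its edge `φ 0, φ 1` against the edge `a b`; the
vertex `a` lies in a second `K_7` (given by `ψ`, `ψ 0 = a`), disjoint from the first, and `b` is
adjacent to `ψ 1` or equal to it. -/
theorem protect {V : Type*} {G : SimpleGraph V} (D : Drawing G) (hD : D.IsSimple)
    (hf : ∀ e, ∃ v, ∀ f, D.Crosses e f → v ∈ f) (φ : Fin 7 → V)
    (hφ : ∀ i j, i ≠ j → G.Adj (φ i) (φ j)) (a b a' b' : V)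
    (ψ : Fin 7 → V) (hψ : ∀ i j, i ≠ j → G.Adj (ψ i) (ψ j)) (hψ0 : ψ 0 = a) (hψ1 : ψ 1 = a')
    (χ : Fin 7 → V) (hχ : ∀ i j, i ≠ j → G.Adj (χ i) (χ j)) (hχ0 : χ 0 = b) (hχ1 : χ 1 = b')
    (hab : G.Adj a b) (hba' : b = a' ∨ G.Adj b a') (hab' : a = b' ∨ G.Adj a b')
    (h1 : ∀ i j, φ i ≠ ψ j) (h2 : ∀ i j, φ i ≠ χ j) :
    ¬ D.Crosses s(φ 0, φ 1) s(a, b) := by
  intro hc
  obtain ⟨z, hz⟩ := hf s(φ 0, φ 1)
  have h3 := hz _ hc
  rw [Sym2.mem_iff] at h3
  rcases h3 with h3 | h3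
  · rw [h3] at hz
    exact protect_aux D hD hf φ hφ a b a' ψ hψ hψ0 hψ1 hab hba' h1
      (fun i => by rw [← hχ0]; exact h2 i 0) hc hz
  · rw [h3] at hz
    exact protect_aux D hD hf φ hφ b a b' χ hχ hχ0 hχ1 hab.symm hab' h2
      (fun i => by rw [← hψ0]; exact h1 i 0) (by rw [Sym2.eq_swap (a := b)]; exact hc) hz

namespace PentaAux

/-- the `K_7` number `w`, starting with the two ends of the wheel edge (in one of the two orders) -/
def K (w : Fin 10) (o : Bool) (t : Fin 7) : Fin 56 :=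
  if t = 0 then Fin.ofNat 56 (if o then (wheelEnds w).2 else (wheelEnds w).1)
  else if t = 1 then Fin.ofNat 56 (if o then (wheelEnds w).1 else (wheelEnds w).2)
  else Fin.ofNat 56 (4 + 5 * w + t)

lemma K_adj : ∀ (w : Fin 10) (o : Bool) (i j : Fin 7), i ≠ j → GG.Adj (K w o i) (K w o j) := by
  decide +kernel

/-- two vertices `< 6` form a wheel edge -/
def isW (a b : ℕ) : Bool := wheel.contains (a, b) || wheel.contains (b, a)

/-- the check for one quadruple -/
def chk (a b c d : ℕ) (w : Fin 10) (o : Bool) : Bool :=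
  ((K w o 0 : Fin 56) : ℕ) == a && ((K w o 1 : Fin 56) : ℕ) == b &&
    ((List.finRange 10).any fun w1 => [true, false].any fun o1 =>
      ((K w1 o1 0 : Fin 56) : ℕ) == c && (d == ((K w1 o1 1 : Fin 56) : ℕ) ||
        adjB d ((K w1 o1 1 : Fin 56) : ℕ)) &&
        ((List.finRange 7).all fun i => (List.finRange 7).all fun j =>
          ((K w o i : Fin 56) : ℕ) != ((K w1 o1 j : Fin 56) : ℕ)))

lemma chk_all' : ((List.range 6).all fun a => (List.range 6).all fun b => (List.range 6).all fun c =>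
    (List.range 6).all fun d => (a == c || a == d || b == c || b == d || c == d || !isW a b ||
      ((List.finRange 10).any fun w => [true, false].any fun o =>
        chk a b c d w o && chk a b d c w o))) = true := by
  decide +kernel

lemma chk_all (a : ℕ) (ha : a < 6) (b : ℕ) (hb : b < 6) (c : ℕ) (hc : c < 6) (d : ℕ) (hd : d < 6)
    (hac : a ≠ c) (had : a ≠ d) (hbc : b ≠ c) (hbd : b ≠ d) (hcd : c ≠ d)
    (hw : isW a b = true) : ((List.finRange 10).any fun w => [true, false].any fun o =>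
      chk a b c d w o && chk a b d c w o) = true := by
  have h := chk_all'
  rw [List.all_eq_true] at h
  have h := h a (List.mem_range.2 ha)
  rw [List.all_eq_true] at h
  have h := h b (List.mem_range.2 hb)
  rw [List.all_eq_true] at h
  have h := h c (List.mem_range.2 hc)
  rw [List.all_eq_true] at h
  have h := h d (List.mem_range.2 hd)
  rw [beq_false_of_ne hac, beq_false_of_ne had, beq_false_of_ne hbc, beq_false_of_ne hbd,
    beq_false_of_ne hcd, hw] at h
  simpa only [Bool.not_true, Bool.false_or] using h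

lemma chk_spec {a b c d : Fin 56} {w : Fin 10} {o : Bool} (h : chk a b c d w o = true) :
    K w o 0 = a ∧ K w o 1 = b ∧ ∃ w1 o1, K w1 o1 0 = c ∧ (d = K w1 o1 1 ∨ GG.Adj d (K w1 o1 1)) ∧
      ∀ i j, K w o i ≠ K w1 o1 j := by
  unfold chk at h
  simp only [Bool.and_eq_true, beq_iff_eq, List.any_eq_true, List.all_eq_true, Bool.or_eq_true,
    bne_iff_ne] at h
  obtain ⟨⟨h1, h2⟩, w1, _, o1, _, ⟨h3, h4⟩, h5⟩ := h
  refine ⟨Fin.ext h1, Fin.ext h2, w1, o1, Fin.ext h3, ?_, fun i j => ?_⟩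
  · rcases h4 with h4 | h4
    · exact Or.inl (Fin.ext h4)
    · exact Or.inr h4
  · have := h5 i (List.mem_finRange i) j (List.mem_finRange j)
    exact fun h => this (by rw [h])

lemma adj_small {a b : Fin 56} (ha : (a : ℕ) < 6) (hb : (b : ℕ) < 6) (h : a ≠ b) : GG.Adj a b := by
  show adjB a b = true
  unfold adjB
  rw [if_pos ha, if_pos hb, bne_iff_ne]
  exact fun h1 => h (Fin.ext h1)

lemma noncross (D : Drawing GG) (hD : D.IsSimple)
    (hf : ∀ e, ∃ v, ∀ f, D.Crosses e f → v ∈ f) {a b c d : Fin 56} (ha : (a : ℕ) < 6)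
    (hb : (b : ℕ) < 6) (hc : (c : ℕ) < 6) (hd : (d : ℕ) < 6) (hac : a ≠ c) (had : a ≠ d)
    (hbc : b ≠ c) (hbd : b ≠ d) (hcd : c ≠ d) (hw : isW a b = true) :
    ¬ D.Crosses s(a, b) s(c, d) := by
  have h := chk_all a ha b hb c hc d hd (fun h => hac (Fin.ext h)) (fun h => had (Fin.ext h))
    (fun h => hbc (Fin.ext h)) (fun h => hbd (Fin.ext h)) (fun h => hcd (Fin.ext h)) hw
  simp only [List.any_eq_true, Bool.and_eq_true] at h
  obtain ⟨w, _, o, _, h1, h2⟩ := h
  obtain ⟨e0, e1, w1, o1, h3, h4, h5⟩ := chk_spec h1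
  obtain ⟨-, -, w2, o2, h6, h7, h8⟩ := chk_spec h2
  have key := protect D hD hf (K w o) (K_adj w o) c d (K w1 o1 1) (K w2 o2 1) (K w1 o1)
    (K_adj w1 o1) h3 rfl (K w2 o2) (K_adj w2 o2) h6 rfl (adj_small hc hd hcd) h4 h7 h5 h8
  rwa [e0, e1] at key

lemma cr1 (D : Drawing GG) (hD : D.IsSimple)
    (hf : ∀ e, ∃ v, ∀ f, D.Crosses e f → v ∈ f) (a b c d : Fin 56)
    (h : ((a : ℕ) < 6 ∧ (b : ℕ) < 6 ∧ (c : ℕ) < 6 ∧ (d : ℕ) < 6) ∧ (a ≠ c ∧ a ≠ d ∧ b ≠ c ∧ b ≠ d) ∧
      c ≠ d ∧ isW a b = true) : D.cr s(a, b) s(c, d) = 0 :=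
  cr_zero (noncross D hD hf h.1.1 h.1.2.1 h.1.2.2.1 h.1.2.2.2 h.2.1.1 h.2.1.2.1 h.2.1.2.2.1
    h.2.1.2.2.2 h.2.2.1 h.2.2.2)

lemma cr2 (D : Drawing GG) (hD : D.IsSimple)
    (hf : ∀ e, ∃ v, ∀ f, D.Crosses e f → v ∈ f) (c d a b : Fin 56)
    (h : ((a : ℕ) < 6 ∧ (b : ℕ) < 6 ∧ (c : ℕ) < 6 ∧ (d : ℕ) < 6) ∧ (a ≠ c ∧ a ≠ d ∧ b ≠ c ∧ b ≠ d) ∧
      c ≠ d ∧ isW a b = true) : D.cr s(c, d) s(a, b) = 0 :=
  cr_zero fun hc => noncross D hD hf h.1.1 h.1.2.1 h.1.2.2.1 h.1.2.2.2 h.2.1.1 h.2.1.2.1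
    h.2.1.2.2.1 h.2.1.2.2.2 h.2.2.1 h.2.2.2 hc.symm

end PentaAux

theorem pentagram (D : Drawing GG) (hD : D.IsSimple)
    (hf : ∀ e, ∃ v, ∀ f, D.Crosses e f → v ∈ f) :
    D.Crosses s(1, 3) s(2, 4) ∧ D.Crosses s(2, 4) s(3, 5) ∧ D.Crosses s(3, 5) s(4, 1) ∧
      D.Crosses s(4, 1) s(5, 2) ∧ D.Crosses s(5, 2) s(1, 3) := by
  have key : ∀ b c d e : Fin 56, (b : ℕ) < 6 → (c : ℕ) < 6 → (d : ℕ) < 6 → (e : ℕ) < 6 →
      b ≠ 0 → c ≠ 0 → d ≠ 0 → e ≠ 0 → b ≠ c → b ≠ d → b ≠ e → c ≠ d → c ≠ e → d ≠ e →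
      isW 0 b = true → isW 0 c = true → isW 0 d = true → isW 0 e = true →
      isW b c = true → isW c d = true → isW d e = true → D.Crosses s(b, d) s(c, e) := by
    intro b c d e hb hc hd he b0 c0 d0 e0 hbc hbd hbe hcd hce hde wb wc wd we wbc wcd wde
    have z0 : ((0 : Fin 56) : ℕ) < 6 := by decide
    have h5 := K5_odd D hD 0 b c d e (adj_small z0 hb b0.symm) (adj_small z0 hc c0.symm)
      (adj_small z0 hd d0.symm) (adj_small z0 he e0.symm) (adj_small hb hc hbc)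
      (adj_small hb hd hbd) (adj_small hb he hbe) (adj_small hc hd hcd) (adj_small hc he hce)
      (adj_small hd he hde)
    rw [cr1 D hD hf 0 b c d ⟨⟨z0, hb, hc, hd⟩, ⟨c0.symm, d0.symm, hbc, hbd⟩, hcd, wb⟩,
      cr1 D hD hf 0 c b d ⟨⟨z0, hc, hb, hd⟩, ⟨b0.symm, d0.symm, hbc.symm, hcd⟩, hbd, wc⟩,
      cr1 D hD hf 0 d b c ⟨⟨z0, hd, hb, hc⟩, ⟨b0.symm, c0.symm, hbd.symm, hcd.symm⟩, hbc, wd⟩,
      cr1 D hD hf 0 b c e ⟨⟨z0, hb, hc, he⟩, ⟨c0.symm, e0.symm, hbc, hbe⟩, hce, wb⟩,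
      cr1 D hD hf 0 c b e ⟨⟨z0, hc, hb, he⟩, ⟨b0.symm, e0.symm, hbc.symm, hce⟩, hbe, wc⟩,
      cr1 D hD hf 0 e b c ⟨⟨z0, he, hb, hc⟩, ⟨b0.symm, c0.symm, hbe.symm, hce.symm⟩, hbc, we⟩,
      cr1 D hD hf 0 b d e ⟨⟨z0, hb, hd, he⟩, ⟨d0.symm, e0.symm, hbd, hbe⟩, hde, wb⟩,
      cr1 D hD hf 0 d b e ⟨⟨z0, hd, hb, he⟩, ⟨b0.symm, e0.symm, hbd.symm, hde⟩, hbe, wd⟩,
      cr1 D hD hf 0 e b d ⟨⟨z0, he, hb, hd⟩, ⟨b0.symm, d0.symm, hbe.symm, hde.symm⟩, hbd, we⟩,
      cr1 D hD hf 0 c d e ⟨⟨z0, hc, hd, he⟩, ⟨d0.symm, e0.symm, hcd, hce⟩, hde, wc⟩,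
      cr1 D hD hf 0 d c e ⟨⟨z0, hd, hc, he⟩, ⟨c0.symm, e0.symm, hcd.symm, hde⟩, hce, wd⟩,
      cr1 D hD hf 0 e c d ⟨⟨z0, he, hc, hd⟩, ⟨c0.symm, d0.symm, hce.symm, hde.symm⟩, hcd, we⟩,
      cr1 D hD hf b c d e ⟨⟨hb, hc, hd, he⟩, ⟨hbd, hbe, hcd, hce⟩, hde, wbc⟩,
      cr2 D hD hf b e c d ⟨⟨hc, hd, hb, he⟩, ⟨hbc.symm, hce, hbd.symm, hde⟩, hbe, wcd⟩] at h5
    simp only [add_zero, zero_add] at h5
    exact crosses_of_cr h5
  refine ⟨?_, ?_, ?_, ?_, ?_⟩
  · exact key 1 2 3 4 (by decide) (by decide) (by decide) (by decide) (by decide) (by decide)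
      (by decide) (by decide) (by decide) (by decide) (by decide) (by decide) (by decide)
      (by decide) (by decide) (by decide) (by decide) (by decide) (by decide) (by decide)
      (by decide)
  · exact key 2 3 4 5 (by decide) (by decide) (by decide) (by decide) (by decide) (by decide)
      (by decide) (by decide) (by decide) (by decide) (by decide) (by decide) (by decide)
      (by decide) (by decide) (by decide) (by decide) (by decide) (by decide) (by decide)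
      (by decide)
  · have := key 3 4 5 1 (by decide) (by decide) (by decide) (by decide) (by decide) (by decide)
      (by decide) (by decide) (by decide) (by decide) (by decide) (by decide) (by decide)
      (by decide) (by decide) (by decide) (by decide) (by decide) (by decide) (by decide)
      (by decide)
    exact this
  · exact key 4 5 1 2 (by decide) (by decide) (by decide) (by decide) (by decide) (by decide)
      (by decide) (by decide) (by decide) (by decide) (by decide) (by decide) (by decide)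
      (by decide) (by decide) (by decide) (by decide) (by decide) (by decide) (by decide)
      (by decide)
  · exact key 5 1 2 3 (by decide) (by decide) (by decide) (by decide) (by decide) (by decide)
      (by decide) (by decide) (by decide) (by decide) (by decide) (by decide) (by decide)
      (by decide) (by decide) (by decide) (by decide) (by decide) (by decide) (by decide)
      (by decide)

end Pool.Agent.MP_4b7180_co
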