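import Pool.Agent.MP_4b7180_co.Defs

/-!
# Straight-line drawings
-/

namespace Pool.Agent.MP_4b7180_co

open Set

namespace Str

/-- Points of a segment by a real parameter. -/
theorem mem_seg {p q z : ℂ} : z ∈ segment ℝ p q ↔ ∃ t : ℝ, 0 ≤ t ∧ t ≤ 1 ∧ z = p + t * (q - p) := by
  rw [segment_eq_image']
  constructor
  · rintro ⟨t, ht, rfl⟩
    exact ⟨t, ht.1, ht.2, by simp⟩
  · rintro ⟨t, h0, h1, rfl⟩
    exact ⟨t, ⟨h0, h1⟩, by simp⟩

theorem isArc_seg {p q : ℂ} (h : p ≠ q) : IsArc (segment ℝ p q) p q := by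
  have hne : q - p ≠ 0 := sub_ne_zero.mpr h.symm
  refine ⟨⟨⟨fun t => p + (t : ℝ) * (q - p), by fun_prop⟩, by simp, by simp⟩, ?_, ?_⟩
  · intro s t hst
    have : ((s : ℝ) : ℂ) * (q - p) = ((t : ℝ) : ℂ) * (q - p) := by
      have := hst
      simpa using this
    have := mul_right_cancel₀ hne this
    exact Subtype.ext (by exact_mod_cast this)
  · ext z
    rw [mem_seg]
    constructor
    · rintro ⟨t, rfl⟩
      exact ⟨t, t.2.1, t.2.2, rfl⟩
    · rintro ⟨t, h0, h1, rfl⟩
      exact ⟨⟨t, h0, h1⟩, rfl⟩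

/-- Two segments on a common line none of whose endpoints lies on the other segment do not meet. -/
theorem collinear_disjoint {p q r s : ℂ} (hp : p ∉ segment ℝ r s) (hr : r ∉ segment ℝ p q)
    (hs : s ∉ segment ℝ p q) {ρ ρ' : ℝ} (er : r = p + ρ * (q - p)) (es : s = p + ρ' * (q - p))
    {z : ℂ} (h1 : z ∈ segment ℝ p q) (h2 : z ∈ segment ℝ r s) (hpq : p ≠ q) : False := by
  have hne : q - p ≠ 0 := sub_ne_zero.mpr hpq.symm
  obtain ⟨a, a0, a1, ha⟩ := mem_seg.mp h1
  obtain ⟨b, b0, b1, hb⟩ := mem_seg.mp h2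
  have hρ : ¬ (0 ≤ ρ ∧ ρ ≤ 1) := fun h => hr (mem_seg.mpr ⟨ρ, h.1, h.2, er⟩)
  have hρ' : ¬ (0 ≤ ρ' ∧ ρ' ≤ 1) := fun h => hs (mem_seg.mpr ⟨ρ', h.1, h.2, es⟩)
  have hab : a = ρ + b * (ρ' - ρ) := by
    have e : (a : ℂ) * (q - p) = ((ρ + b * (ρ' - ρ) : ℝ) : ℂ) * (q - p) := by
      have : p + a * (q - p) = r + b * (s - r) := ha.symm.trans hb
      rw [er, es] at this
      push_cast
      linear_combination this
    exact_mod_cast mul_right_cancel₀ hne e
  -- `0` lies between `ρ` and `ρ'`
  have key : ∃ c : ℝ, 0 ≤ c ∧ c ≤ 1 ∧ 0 = ρ + c * (ρ' - ρ) := by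
    rcases lt_trichotomy ρ ρ' with h | h | h
    · have h1 : ρ ≤ a := by nlinarith
      have h2 : a ≤ ρ' := by nlinarith
      have h3 : ρ < 0 := by
        by_contra h4
        exact hρ ⟨not_lt.mp h4, h1.trans a1⟩
      have h4 : 0 ≤ ρ' := a0.trans h2
      refine ⟨-ρ / (ρ' - ρ), div_nonneg (by linarith) (by linarith),
        (div_le_one (by linarith)).mpr (by linarith), ?_⟩
      rw [div_mul_cancel₀ _ (by linarith : (ρ' - ρ) ≠ 0)]
      ring
    · exfalso
      rw [← h] at hab
      have : a = ρ := by rw [hab]; ring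
      exact hρ ⟨this ▸ a0, this ▸ a1⟩
    · have h1 : ρ' ≤ a := by nlinarith
      have h2 : a ≤ ρ := by nlinarith
      have h3 : ρ' < 0 := by
        by_contra h4
        exact hρ' ⟨not_lt.mp h4, h1.trans a1⟩
      have h4 : 0 ≤ ρ := a0.trans h2
      refine ⟨ρ / (ρ - ρ'), div_nonneg (by linarith) (by linarith),
        (div_le_one (by linarith)).mpr (by linarith), ?_⟩
      have : ρ' - ρ = -(ρ - ρ') := by ring
      rw [this, mul_neg, div_mul_cancel₀ _ (by linarith : (ρ - ρ') ≠ 0)]
      ring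
  obtain ⟨c, c0, c1, hc⟩ := key
  apply hp
  rw [mem_seg]
  refine ⟨c, c0, c1, ?_⟩
  rw [er, es]
  have : ((ρ + c * (ρ' - ρ) : ℝ) : ℂ) = 0 := by rw [← hc]; simp
  push_cast at this
  linear_combination -(q - p) * this

/-- Meeting segments of the above kind are not parallel. -/
theorem not_parallel {p q r s : ℂ} (hp : p ∉ segment ℝ r s) (hr : r ∉ segment ℝ p q)
    (hs : s ∉ segment ℝ p q) (hpq : p ≠ q) {z : ℂ} (h1 : z ∈ segment ℝ p q)
    (h2 : z ∈ segment ℝ r s) (l : ℝ) : s - r ≠ l * (q - p) := by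
  intro hl
  obtain ⟨a, a0, a1, ha⟩ := mem_seg.mp h1
  obtain ⟨b, b0, b1, hb⟩ := mem_seg.mp h2
  refine collinear_disjoint hp hr hs (ρ := a - b * l) (ρ' := a - b * l + l) ?_ ?_ h1 h2 hpq
  · push_cast
    linear_combination ha - hb - (b : ℂ) * hl
  · push_cast
    linear_combination ha - hb - (b : ℂ) * hl + hl

/-- The determinant of two vectors. -/
def det (z w : ℂ) : ℝ := z.re * w.im - z.im * w.re

theorem det_ne_zero {d₁ d₂ : ℂ} (h1 : d₁ ≠ 0) (h : ∀ l : ℝ, d₂ ≠ l * d₁) : det d₁ d₂ ≠ 0 := by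
  intro h0
  unfold det at h0
  by_cases hre : d₁.re = 0
  · have him : d₁.im ≠ 0 := fun him => h1 (Complex.ext hre him)
    apply h (d₂.im / d₁.im)
    rw [hre, zero_mul, zero_sub, neg_eq_zero, mul_eq_zero] at h0
    have h2 : d₂.re = 0 := h0.resolve_left him
    apply Complex.ext
    · simp [hre, h2]
    · simp [him]
  · apply h (d₂.re / d₁.re)
    apply Complex.ext
    · simp [hre]
    · simp
      field_simp
      linarith

theorem det_identity (d₁ d₂ w : ℂ) :
    (det w d₂ : ℂ) * d₁ + (det d₁ w : ℂ) * d₂ = (det d₁ d₂ : ℂ) * w := by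
  apply Complex.ext
  · simp only [Complex.add_re, Complex.re_ofReal_mul, det]
    ring
  · simp only [Complex.add_im, Complex.im_ofReal_mul, det]
    ring

theorem det_left (d₁ d₂ w : ℂ) :
    det ((w.re : ℂ) * d₁ + (w.im : ℂ) * d₂) d₂ = w.re * det d₁ d₂ := by
  simp only [Complex.add_re, Complex.re_ofReal_mul, Complex.add_im, Complex.im_ofReal_mul, det]
  ring

theorem det_right (d₁ d₂ w : ℂ) :
    det d₁ ((w.re : ℂ) * d₁ + (w.im : ℂ) * d₂) = w.im * det d₁ d₂ := by
  simp only [Complex.add_re, Complex.re_ofReal_mul, Complex.add_im, Complex.im_ofReal_mul, det]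
  ring

/-- The chart: coordinates along `d₁` and `d₂`. -/
noncomputable def chart (x d₁ d₂ : ℂ) (h : det d₁ d₂ ≠ 0) : ℂ ≃ₜ ℂ where
  toFun z := ((det (z - x) d₂ / det d₁ d₂ : ℝ) : ℂ)
    + ((det d₁ (z - x) / det d₁ d₂ : ℝ) : ℂ) * Complex.I
  invFun w := x + ((w.re : ℂ) * d₁ + (w.im : ℂ) * d₂)
  left_inv z := by
    have hc : (det d₁ d₂ : ℂ) ≠ 0 := by exact_mod_cast h
    simp only [Complex.add_re, Complex.add_im, Complex.ofReal_re, Complex.ofReal_im,
      Complex.mul_re, Complex.mul_im, Complex.I_re, Complex.I_im, mul_zero, mul_one, sub_zero,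
      add_zero, zero_add]
    push_cast
    have := det_identity d₁ d₂ (z - x)
    field_simp
    linear_combination this
  right_inv w := by
    simp only [add_sub_cancel_left, det_left, det_right]
    rw [mul_div_assoc, mul_div_assoc, div_self h, mul_one, mul_one]
    exact Complex.re_add_im w
  continuous_toFun := by
    unfold det
    fun_prop
  continuous_invFun := by fun_prop

theorem chart_re (x d₁ d₂ : ℂ) (h : det d₁ d₂ ≠ 0) (z : ℂ) :
    (chart x d₁ d₂ h z).re = det (z - x) d₂ / det d₁ d₂ := by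
  change (((det (z - x) d₂ / det d₁ d₂ : ℝ) : ℂ)
    + ((det d₁ (z - x) / det d₁ d₂ : ℝ) : ℂ) * Complex.I).re = _
  simp only [Complex.add_re, Complex.ofReal_re, Complex.ofReal_im,
      Complex.mul_re, Complex.I_re, Complex.I_im, mul_zero, mul_one, sub_zero, add_zero]

theorem chart_im (x d₁ d₂ : ℂ) (h : det d₁ d₂ ≠ 0) (z : ℂ) :
    (chart x d₁ d₂ h z).im = det d₁ (z - x) / det d₁ d₂ := by
  change (((det (z - x) d₂ / det d₁ d₂ : ℝ) : ℂ)
    + ((det d₁ (z - x) / det d₁ d₂ : ℝ) : ℂ) * Complex.I).im = _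
  simp only [Complex.add_im, Complex.ofReal_re, Complex.ofReal_im,
      Complex.mul_im, Complex.I_re, Complex.I_im, mul_zero, mul_one, zero_add, add_zero]

theorem crossAt_seg {p q r s : ℂ} (hp : p ∉ segment ℝ r s) (hq : q ∉ segment ℝ r s)
    (hr : r ∉ segment ℝ p q) (hs : s ∉ segment ℝ p q) (hpq : p ≠ q) {x : ℂ}
    (h1 : x ∈ segment ℝ p q) (h2 : x ∈ segment ℝ r s) :
    CrossAt (segment ℝ p q) (segment ℝ r s) x := by
  have hne : q - p ≠ 0 := sub_ne_zero.mpr hpq.symm
  have hd : det (q - p) (s - r) ≠ 0 := det_ne_zero hne (not_parallel hp hr hs hpq h1 h2)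
  have h1' := h1
  have h2' := h2
  obtain ⟨a, a0, a1, ha⟩ := mem_seg.mp h1'
  obtain ⟨b, b0, b1, hb⟩ := mem_seg.mp h2'
  have a0' : 0 < a := by
    refine lt_of_le_of_ne a0 ?_
    rintro rfl
    apply hp
    have : x = p := by rw [ha]; simp
    rwa [← this]
  have a1' : a < 1 := by
    refine lt_of_le_of_ne a1 ?_
    rintro rfl
    apply hq
    have : x = q := by rw [ha]; simp
    rwa [← this]
  have b0' : 0 < b := by
    refine lt_of_le_of_ne b0 ?_
    rintro rfl
    apply hr
    have : x = r := by rw [hb]; simp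
    rwa [← this]
  have b1' : b < 1 := by
    refine lt_of_le_of_ne b1 ?_
    rintro rfl
    apply hs
    have : x = s := by rw [hb]; simp
    rwa [← this]
  set Φ := chart x (q - p) (s - r) hd with hΦ
  have hsymm : ∀ z, z = x + (((Φ z).re : ℂ) * (q - p) + ((Φ z).im : ℂ) * (s - r)) := by
    intro z
    exact (Φ.left_inv z).symm
  -- the open set
  set U : Set ℂ := {z | 0 < a + (Φ z).re ∧ a + (Φ z).re < 1 ∧ 0 < b + (Φ z).im ∧
    b + (Φ z).im < 1} with hU
  have hcre : Continuous fun z => a + (Φ z).re :=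
    continuous_const.add (Complex.continuous_re.comp Φ.continuous)
  have hcim : Continuous fun z => b + (Φ z).im :=
    continuous_const.add (Complex.continuous_im.comp Φ.continuous)
  have hUo : IsOpen U := by
    rw [hU]
    exact (isOpen_lt continuous_const hcre).inter ((isOpen_lt hcre continuous_const).inter
      ((isOpen_lt continuous_const hcim).inter (isOpen_lt hcim continuous_const)))
  have hΦx : Φ x = 0 := by
    apply Complex.ext
    · rw [hΦ, chart_re]; simp [det]
    · rw [hΦ, chart_im]; simp [det]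
  refine ⟨Φ.toOpenPartialHomeomorph.restrOpen U hUo, ?_, ?_, ?_, ?_⟩
  · rw [OpenPartialHomeomorph.restrOpen_source]
    refine ⟨trivial, ?_⟩
    rw [hU, mem_ofPred_eq, hΦx]
    simp [a0', a1', b0', b1']
  · exact hΦx
  · intro z hz
    rw [OpenPartialHomeomorph.restrOpen_source] at hz
    have hz' : z ∈ U := hz.2
    change z ∈ segment ℝ p q ↔ (Φ z).im = 0
    constructor
    · intro h
      obtain ⟨t, t0, t1, ht⟩ := mem_seg.mp h
      have e : z = x + ((t - a : ℝ) : ℂ) * (q - p) := by
        rw [ht, ha]; push_cast; ring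
      rw [hΦ, chart_im, e, add_sub_cancel_left]
      have : det (q - p) (((t - a : ℝ) : ℂ) * (q - p)) = 0 := by
        simp only [Complex.re_ofReal_mul, Complex.im_ofReal_mul, det]
        ring
      rw [this, zero_div]
    · intro h
      rw [mem_seg]
      refine ⟨a + (Φ z).re, hz'.1.le, hz'.2.1.le, ?_⟩
      have := hsymm z
      rw [h, Complex.ofReal_zero, zero_mul, add_zero] at this
      push_cast
      linear_combination this + ha
  · intro z hz
    rw [OpenPartialHomeomorph.restrOpen_source] at hz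
    have hz' : z ∈ U := hz.2
    change z ∈ segment ℝ r s ↔ (Φ z).re = 0
    constructor
    · intro h
      obtain ⟨t, t0, t1, ht⟩ := mem_seg.mp h
      have e : z = x + ((t - b : ℝ) : ℂ) * (s - r) := by
        rw [ht, hb]; push_cast; ring
      rw [hΦ, chart_re, e, add_sub_cancel_left]
      have : det (((t - b : ℝ) : ℂ) * (s - r)) (s - r) = 0 := by
        simp only [Complex.re_ofReal_mul, Complex.im_ofReal_mul, det]
        ring
      rw [this, zero_div]
    · intro h
      rw [mem_seg]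
      refine ⟨b + (Φ z).im, hz'.2.2.1.le, hz'.2.2.2.le, ?_⟩
      have := hsymm z
      rw [h, Complex.ofReal_zero, zero_mul, zero_add] at this
      push_cast
      linear_combination this + hb

/-- Two adjacent segments. -/
theorem adjacent_seg {p q r : ℂ} (h1 : q ∉ segment ℝ p r) (h2 : r ∉ segment ℝ p q) {z : ℂ}
    (hz1 : z ∈ segment ℝ p q) (hz2 : z ∈ segment ℝ p r) : z = p := by
  obtain ⟨a, a0, a1, ha⟩ := mem_seg.mp hz1
  obtain ⟨b, b0, b1, hb⟩ := mem_seg.mp hz2
  by_contra hne
  have a0' : 0 < a := by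
    refine lt_of_le_of_ne a0 ?_
    rintro rfl
    exact hne (by rw [ha]; simp)
  have b0' : 0 < b := by
    refine lt_of_le_of_ne b0 ?_
    rintro rfl
    exact hne (by rw [hb]; simp)
  have ha0 : (a : ℂ) ≠ 0 := by exact_mod_cast a0'.ne'
  have hb0 : (b : ℂ) ≠ 0 := by exact_mod_cast b0'.ne'
  have e : (a : ℂ) * (q - p) = b * (r - p) := by linear_combination hb - ha
  rcases le_total a b with hab | hab
  · apply h2
    rw [mem_seg]
    refine ⟨a / b, by positivity, (div_le_one b0').mpr hab, ?_⟩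
    push_cast
    field_simp
    linear_combination -e
  · apply h1
    rw [mem_seg]
    refine ⟨b / a, by positivity, (div_le_one a0').mpr hab, ?_⟩
    push_cast
    field_simp
    linear_combination e

/-- An arc contained in a segment that does not start or end at the endpoint `p` of the segment
avoids `p`. -/
theorem end_not_mem {p q x y : ℂ} {B : Set ℂ} (hB : B ⊆ segment ℝ p q) (h : IsArc B x y)
    (hx : x ≠ p) (hy : y ≠ p) : p ∉ B := by
  obtain ⟨γ, hinj, rfl⟩ := h
  rintro ⟨s₁, hs₁⟩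
  by_cases hpq : p = q
  · subst hpq
    have : x ∈ segment ℝ p p := hB ⟨0, γ.source⟩
    rw [segment_same] at this
    exact hx this
  have hne : q - p ≠ 0 := sub_ne_zero.mpr (Ne.symm hpq)
  have hn : (Complex.normSq (q - p)) ≠ 0 := by simpa using hne
  -- real parameter
  set h : unitInterval → ℝ := fun s => ((γ s - p) * (starRingEnd ℂ) (q - p)).re
    / Complex.normSq (q - p) with hh
  have hc : Continuous h := by
    rw [hh]
    have : Continuous fun s => (γ s - p) * (starRingEnd ℂ) (q - p) := by fun_prop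
    exact (Complex.continuous_re.comp this).div_const _
  have hval : ∀ s, γ s = p + (h s : ℂ) * (q - p) ∧ 0 ≤ h s := by
    intro s
    obtain ⟨t, t0, t1, ht⟩ := mem_seg.mp (hB ⟨s, rfl⟩)
    have : h s = t := by
      rw [hh]
      simp only
      rw [ht, add_sub_cancel_left, mul_assoc, Complex.mul_conj]
      rw [← Complex.ofReal_mul, Complex.ofReal_re]
      field_simp
    rw [this]
    exact ⟨ht, t0⟩
  have h0 : 0 < h 0 := by
    refine lt_of_le_of_ne (hval 0).2 ?_
    intro h0
    apply hx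
    have := (hval 0).1
    rw [← h0] at this
    simpa using this
  have h1 : 0 < h 1 := by
    refine lt_of_le_of_ne (hval 1).2 ?_
    intro h0
    apply hy
    have := (hval 1).1
    rw [← h0] at this
    simpa using this
  have hs1 : h s₁ = 0 := by
    have := (hval s₁).1
    rw [hs₁] at this
    have h2 : (h s₁ : ℂ) * (q - p) = 0 := by linear_combination -this
    have h3 : (h s₁ : ℂ) = 0 := (mul_eq_zero.mp h2).resolve_right hne
    exact_mod_cast h3
  set c := min (h 0) (h 1) / 2 with hcdef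
  have hc0 : 0 < c := by rw [hcdef]; positivity
  have hcl : c < h 0 := by
    have := min_le_left (h 0) (h 1); rw [hcdef]; linarith
  have hcr : c < h 1 := by
    have := min_le_right (h 0) (h 1); rw [hcdef]; linarith
  have hinjh : ∀ s t, h s = h t → s = t := by
    intro s t hst
    apply hinj
    rw [(hval s).1, (hval t).1, hst]
  obtain ⟨s₂, hs2, hs2'⟩ : ∃ s₂ ∈ Icc 0 s₁, h s₂ = c :=
    intermediate_value_Icc' (unitInterval.nonneg' (t := s₁)) hc.continuousOn
      ⟨by rw [hs1]; exact hc0.le, hcl.le⟩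
  obtain ⟨s₃, hs3, hs3'⟩ : ∃ s₃ ∈ Icc s₁ 1, h s₃ = c :=
    intermediate_value_Icc (unitInterval.le_one' (t := s₁)) hc.continuousOn
      ⟨by rw [hs1]; exact hc0.le, hcr.le⟩
  have h23 := hinjh s₂ s₃ (hs2'.trans hs3'.symm)
  have h2 : s₂ = s₁ := le_antisymm hs2.2 (h23 ▸ hs3.1)
  rw [h2, hs1] at hs2'
  exact hc0.ne hs2'

end Str

open Str in
/-- A straight-line drawing in which the edges crossing a given edge have a common endpoint is
strongly fan-planar. -/
theorem straight {V : Type*} {G : SimpleGraph V} (P : V → ℂ) (hP : Function.Injective P)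
    (h1 : ∀ u v w, G.Adj u v → w ≠ u → w ≠ v → P w ∉ segment ℝ (P u) (P v))
    (h2 : ∀ u v, G.Adj u v → ∃ w, ∀ z t, G.Adj z t → z ≠ u → z ≠ v → t ≠ u → t ≠ v →
      (segment ℝ (P u) (P v) ∩ segment ℝ (P z) (P t)).Nonempty → w = z ∨ w = t) :
    ∃ D : Drawing G, D.IsStronglyFanPlanar := by
  classical
  set arc : Sym2 V → Set ℂ := fun e => {z | ∃ u v, e = s(u, v) ∧ z ∈ segment ℝ (P u) (P v)}
    with harc
  have arc_mk : ∀ u v, arc s(u, v) = segment ℝ (P u) (P v) := by
    intro u v
    ext z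
    constructor
    · rintro ⟨u', v', he, hz⟩
      rcases Sym2.eq_iff.mp he with ⟨rfl, rfl⟩ | ⟨rfl, rfl⟩
      · exact hz
      · rwa [segment_symm]
    · intro hz
      exact ⟨u, v, rfl, hz⟩
  have hne : ∀ u v, G.Adj u v → P u ≠ P v := fun u v h e => h.ne (hP e)
  let D : Drawing G :=
    { pt := P
      arc := arc
      pt_injective := hP
      isArc := fun u v h => by rw [arc_mk]; exact isArc_seg (hne u v h)
      mem_of_pt_mem := by
        intro e he w hw
        induction e using Sym2.ind with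
        | _ u v =>
          rw [arc_mk] at hw
          rw [Sym2.mem_iff]
          by_contra hcon
          rw [not_or] at hcon
          exact h1 u v w he hcon.1 hcon.2 hw }
  have harcD : ∀ u v, D.arc s(u, v) = segment ℝ (P u) (P v) := arc_mk
  have hnotmem : ∀ u v w, G.Adj u v → w ≠ u → w ≠ v → P w ∉ segment ℝ (P u) (P v) := h1
  have indep_iff : ∀ {x y z t : V}, Indep s(x, y) s(z, t) → x ≠ z ∧ x ≠ t ∧ y ≠ z ∧ y ≠ t := by
    intro x y z t h
    refine ⟨?_, ?_, ?_, ?_⟩
    · rintro rfl; exact h x ⟨by simp, by simp⟩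
    · rintro rfl; exact h x ⟨by simp, by simp⟩
    · rintro rfl; exact h y ⟨by simp, by simp⟩
    · rintro rfl; exact h y ⟨by simp, by simp⟩
  have hadj : ∀ e ∈ G.edgeSet, ∀ f ∈ G.edgeSet, e ≠ f → ∀ v, v ∈ e → v ∈ f →
      D.arc e ∩ D.arc f = {D.pt v} := by
    intro e he f hf hef v hve hvf
    obtain ⟨a, rfl⟩ := Sym2.mem_iff_exists.mp hve
    obtain ⟨b, rfl⟩ := Sym2.mem_iff_exists.mp hvf
    have hab : a ≠ b := fun h => hef (by rw [h])
    have hva : G.Adj v a := he
    have hvb : G.Adj v b := hf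
    rw [harcD, harcD]
    apply Subset.antisymm
    · rintro z ⟨hz1, hz2⟩
      exact adjacent_seg (h1 v b a hvb hva.ne' hab) (h1 v a b hva hvb.ne' hab.symm) hz1 hz2
    · rintro z rfl
      exact ⟨left_mem_segment _ _ _, left_mem_segment _ _ _⟩
  have hcommon : ∀ e, ∃ v, ∀ f, D.Crosses e f → v ∈ f := by
    intro e
    induction e using Sym2.ind with
    | _ u v =>
      by_cases he : G.Adj u v
      · obtain ⟨w, hw⟩ := h2 u v he
        refine ⟨w, fun f hf => ?_⟩
        induction f using Sym2.ind with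
        | _ z t =>
          obtain ⟨_, hf2, hf3, hf4⟩ := hf
          rw [harcD, harcD] at hf4
          obtain ⟨i1, i2, i3, i4⟩ := indep_iff hf3
          rw [Sym2.mem_iff]
          exact hw z t hf2 i1.symm i3.symm i2.symm i4.symm hf4
      · exact ⟨u, fun f hf => absurd hf.1 he⟩
  have hcross : ∀ e ∈ G.edgeSet, ∀ f ∈ G.edgeSet, Indep e f → ∀ x ∈ D.arc e ∩ D.arc f,
      CrossAt (D.arc e) (D.arc f) x := by
    intro e he f hf hef x hx
    induction e using Sym2.ind with
    | _ u v =>
      induction f using Sym2.ind with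
      | _ z t =>
        rw [harcD, harcD] at hx ⊢
        obtain ⟨i1, i2, i3, i4⟩ := indep_iff hef
        exact crossAt_seg (h1 z t u hf i1 i2) (h1 z t v hf i3 i4) (h1 u v z he i1.symm i3.symm)
          (h1 u v t he i2.symm i4.symm) (hne u v he) hx.1 hx.2
  have honce : ∀ e ∈ G.edgeSet, ∀ f ∈ G.edgeSet, Indep e f →
      (D.arc e ∩ D.arc f).Subsingleton := by
    intro e he f hf hef x hx y hy
    induction e using Sym2.ind with
    | _ u v =>
      induction f using Sym2.ind with
      | _ z t =>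
        rw [harcD, harcD] at hx hy
        obtain ⟨i1, i2, i3, i4⟩ := indep_iff hef
        have hnp := not_parallel (h1 z t u hf i1 i2) (h1 u v z he i1.symm i3.symm)
          (h1 u v t he i2.symm i4.symm) (hne u v he) hx.1 hx.2
        obtain ⟨a, _, _, ha⟩ := mem_seg.mp hx.1
        obtain ⟨b, _, _, hb⟩ := mem_seg.mp hx.2
        obtain ⟨a', _, _, ha'⟩ := mem_seg.mp hy.1
        obtain ⟨b', _, _, hb'⟩ := mem_seg.mp hy.2
        by_cases hbb : b' = b
        · rw [hb, hb', hbb]
        · exfalso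
          apply hnp ((a' - a) / (b' - b))
          have hbb' : ((b' - b : ℝ) : ℂ) ≠ 0 := by
            exact_mod_cast sub_ne_zero.mpr hbb
          have e1 : ((b' - b : ℝ) : ℂ) * (P t - P z) = ((a' - a : ℝ) : ℂ) * (P v - P u) := by
            push_cast
            linear_combination ha' - ha - hb' + hb
          push_cast at e1 hbb' ⊢
          field_simp
          linear_combination e1
  -- three different edges never pass through a common point which is not a vertex
  have hthree : ∀ e ∈ G.edgeSet, ∀ f ∈ G.edgeSet, ∀ g ∈ G.edgeSet, Indep e f → g ≠ e → g ≠ f →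
      ∀ x, x ∈ D.arc e → x ∈ D.arc f → x ∈ D.arc g → False := by
    intro e he f hf g hg hef hge hgf x hxe hxf hxg
    -- `x` is not a vertex
    have hxv : ∀ v, x ≠ D.pt v := by
      rintro v rfl
      exact hef v ⟨D.mem_of_pt_mem e he v hxe, D.mem_of_pt_mem f hf v hxf⟩
    have ieg : Indep e g := by
      rintro v ⟨h, h'⟩
      have := hadj e he g hg (Ne.symm hge) v h h'
      have hx : x ∈ D.arc e ∩ D.arc g := ⟨hxe, hxg⟩
      rw [this] at hx
      exact hxv v hx
    have ifg : Indep f g := by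
      rintro v ⟨h, h'⟩
      have := hadj f hf g hg (Ne.symm hgf) v h h'
      have hx : x ∈ D.arc f ∩ D.arc g := ⟨hxf, hxg⟩
      rw [this] at hx
      exact hxv v hx
    obtain ⟨w, hw⟩ := hcommon e
    exact ifg w ⟨hw f ⟨he, hf, hef, x, hxe, hxf⟩, hw g ⟨he, hg, ieg, x, hxe, hxg⟩⟩
  refine ⟨D, ⟨⟨hadj, honce, hcross, ?_⟩, hcommon, ?_⟩⟩
  · intro e he f hf hef e' he' f' hf' hef' x hxe hxf hxe' hxf'
    have h3 : e' = e ∨ e' = f := by
      by_contra hcon
      rw [not_or] at hcon
      exact hthree e he f hf e' he' hef hcon.1 hcon.2 x hxe hxf hxe'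
    have h4 : f' = e ∨ f' = f := by
      by_contra hcon
      rw [not_or] at hcon
      exact hthree e he f hf f' hf' hef hcon.1 hcon.2 x hxe hxf hxf'
    have h5 : e' ≠ f' := by
      rintro rfl
      induction e' using Sym2.ind with
      | _ u v => exact hef' u ⟨by simp, by simp⟩
    rcases h3 with rfl | rfl <;> rcases h4 with rfl | rfl
    · exact absurd rfl h5
    · rfl
    · exact Sym2.eq_swap
    · exact absurd rfl h5
  · intro e f g hef heg hfg v hvf hvg p q hpe hpf hqe hqg A B C hA hAarc hB hBarc hC hCarc u hu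
    obtain ⟨u', rfl⟩ := Sym2.mem_iff_exists.mp hu
    have huu' : G.Adj u u' := hef.1
    -- the endpoint of `e` is not on `f`, `g`
    have huf : P u ∉ D.arc f := fun h =>
      hef.2.2.1 u ⟨hu, D.mem_of_pt_mem f hef.2.1 u h⟩
    have hug : P u ∉ D.arc g := fun h =>
      heg.2.2.1 u ⟨hu, D.mem_of_pt_mem g heg.2.1 u h⟩
    have convex_arc : ∀ f : Sym2 V, Convex ℝ (D.arc f) := by
      intro f
      induction f using Sym2.ind with
      | _ z t => rw [harcD]; exact convex_segment _ _
    rw [harcD] at hpe hqe hB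
    obtain ⟨a, a0, a1, ha⟩ := mem_seg.mp hpe
    obtain ⟨b, b0, b1, hb⟩ := mem_seg.mp hqe
    have hpu : p ≠ P u := by
      rintro rfl; exact huf hpf
    have hqu : q ≠ P u := by
      rintro rfl; exact hug hqg
    have ha0 : 0 < a := by
      refine lt_of_le_of_ne a0 ?_
      rintro rfl; exact hpu (by rw [ha]; simp)
    have hb0 : 0 < b := by
      refine lt_of_le_of_ne b0 ?_
      rintro rfl; exact hqu (by rw [hb]; simp)
    have hd : P u' - P u ≠ 0 := sub_ne_zero.mpr (hne u u' huu').symm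
    -- the ray
    set R : Set ℂ := (fun t : ℝ => P u - t * (P u' - P u)) '' Ici 0 with hR
    have between : ∀ (f : Sym2 V) (c t : ℝ), 0 < c → 0 ≤ t →
        P u + c * (P u' - P u) ∈ D.arc f → P u - t * (P u' - P u) ∈ D.arc f → P u ∈ D.arc f := by
      intro f c t hc ht h3 h4
      have hct : 0 < c + t := by linarith
      have := convex_arc f h3 h4 (a := t / (c + t)) (b := c / (c + t)) (by positivity)
        (by positivity) (by field_simp; ring)
      convert this using 1
      have hct' : ((c : ℂ) + t) ≠ 0 := by exact_mod_cast hct.ne'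
      simp only [Complex.real_smul]
      push_cast
      field_simp
      ring
    have hRK : R ⊆ (A ∪ B ∪ C)ᶜ := by
      rintro z ⟨t, ht, rfl⟩ hz
      have ht : (0 : ℝ) ≤ t := ht
      rcases hz with (hz | hz) | hz
      · exact huf (between f a t ha0 ht (by rw [← ha]; exact hpf) (hA hz))
      · obtain ⟨c, c0, c1, hc⟩ := mem_seg.mp (hB hz)
        have e1 : ((c + t : ℝ) : ℂ) * (P u' - P u) = 0 := by
          push_cast
          simp only at hc
          linear_combination -hc
        have e2 : ((c + t : ℝ) : ℂ) = 0 := (mul_eq_zero.mp e1).resolve_right hd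
        have e3 : c + t = 0 := by exact_mod_cast e2
        have e4 : t = 0 := by linarith
        simp only [e4, Complex.ofReal_zero, zero_mul, sub_zero] at hz
        exact end_not_mem hB hBarc hpu hqu hz
      · exact hug (between g b t hb0 ht (by rw [← hb]; exact hqg) (hC hz))
    have hPuR : P u ∈ R := ⟨0, by simp, by simp⟩
    have hRconn : IsPreconnected R := by
      rw [hR]
      apply IsPreconnected.image isPreconnected_Ici
      exact (by fun_prop : Continuous fun t : ℝ => P u - t * (P u' - P u)).continuousOn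
    refine ⟨hRK hPuR, fun hbdd => ?_⟩
    have hsub : R ⊆ connectedComponentIn (A ∪ B ∪ C)ᶜ (P u) :=
      hRconn.subset_connectedComponentIn hPuR hRK
    have hRb : Bornology.IsBounded R := hbdd.subset hsub
    obtain ⟨M, hM⟩ := hRb.exists_norm_le
    have hdn : 0 < ‖P u' - P u‖ := norm_pos_iff.mpr hd
    set t : ℝ := (‖P u‖ + |M| + 1) / ‖P u' - P u‖ with ht
    have ht0 : 0 ≤ t := by positivity
    have h5 := hM (P u - t * (P u' - P u)) ⟨t, ht0, rfl⟩
    have h6 : ‖(t : ℂ) * (P u' - P u)‖ = ‖P u‖ + |M| + 1 := by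
      rw [norm_mul, Complex.norm_real, Real.norm_of_nonneg ht0, ht,
        div_mul_cancel₀ _ hdn.ne']
    have h7 := norm_sub_norm_le ((t : ℂ) * (P u' - P u)) (P u)
    rw [norm_sub_rev] at h7
    have h8 := le_abs_self M
    linarith

end Pool.Agent.MP_4b7180_co
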