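import Pool.Agent.MP_4b7180_co.Defs

/-!
# Total change of argument, boundary winding numbers

`turn f` is the total change of the argument of a nonvanishing continuous function on `[0, 1]`,
`bd F` the winding number of `F` along the boundary of the unit square.
-/

namespace Pool.Agent.MP_4b7180_co

open Set

/-- The total change of the argument of `f` along `[0, 1]`, in units of a full turn. -/
noncomputable def turn (f : ℝ → ℂ) : ℝ := by
  classical
  exact if h : ∃ L : ℝ → ℂ, ContinuousOn L (Icc 0 1) ∧ ∀ t ∈ Icc (0 : ℝ) 1, Complex.exp (L t) = f t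
    then (h.choose 1 - h.choose 0).im / (2 * Real.pi) else 0

namespace TurnAux

/-- Two lifts differ by a constant. -/
theorem lift_unique {f L M : ℝ → ℂ} (hL : ContinuousOn L (Icc 0 1)) (hM : ContinuousOn M (Icc 0 1))
    (h : ∀ t ∈ Icc (0 : ℝ) 1, Complex.exp (L t) = f t)
    (h' : ∀ t ∈ Icc (0 : ℝ) 1, Complex.exp (M t) = f t) : L 1 - L 0 = M 1 - M 0 := by
  -- the difference is a continuous function with values in `2 π i ℤ`
  have hd : ∀ t ∈ Icc (0 : ℝ) 1, ∃ n : ℤ, L t = M t + n * (2 * Real.pi * Complex.I) := by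
    intro t ht
    exact Complex.exp_eq_exp_iff_exists_int.mp ((h t ht).trans (h' t ht).symm)
  have hcont : ContinuousOn (fun t => ((L t - M t).im / (2 * Real.pi) : ℝ)) (Icc 0 1) :=
    (Complex.continuous_im.comp_continuousOn (hL.sub hM)).div_const _
  have hpi : (2 * Real.pi : ℝ) ≠ 0 := by positivity
  have hval : ∀ t ∈ Icc (0 : ℝ) 1, ∃ n : ℤ, (L t - M t).im / (2 * Real.pi) = n ∧
      L t - M t = n * (2 * Real.pi * Complex.I) := by
    intro t ht
    obtain ⟨n, hn⟩ := hd t ht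
    refine ⟨n, ?_, by rw [hn]; ring⟩
    have : L t - M t = ((n * (2 * Real.pi) : ℝ) : ℂ) * Complex.I := by
      rw [hn]; push_cast; ring
    rw [this]
    simp
  -- constancy by the intermediate value theorem
  obtain ⟨n0, hn0, hn0'⟩ := hval 0 (by simp)
  obtain ⟨n1, hn1, hn1'⟩ := hval 1 (by simp)
  have : n0 = n1 := by
    by_contra hne
    have hsub := intermediate_value_uIcc (a := (0:ℝ)) (b := 1)
      (f := fun t => ((L t - M t).im / (2 * Real.pi) : ℝ)) (by simpa [uIcc_of_le] using hcont)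
    simp only [hn0, hn1] at hsub
    -- pick a half integer between
    rcases lt_or_gt_of_ne hne with hlt | hlt
    · have hmem : ((n0 : ℝ) + 1 / 2) ∈ uIcc (n0 : ℝ) n1 := by
        have : (n0 : ℝ) + 1 ≤ n1 := by exact_mod_cast hlt
        rw [mem_uIcc]; left; constructor <;> linarith
      obtain ⟨t, ht, htt⟩ := hsub hmem
      rw [uIcc_of_le (by norm_num : (0:ℝ) ≤ 1)] at ht
      obtain ⟨n, hn, _⟩ := hval t ht
      simp only at htt
      rw [hn] at htt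
      have h2 : (2 * n : ℝ) = 2 * n0 + 1 := by linarith
      have h3 : 2 * n = 2 * n0 + 1 := by exact_mod_cast h2
      omega
    · have hmem : ((n1 : ℝ) + 1 / 2) ∈ uIcc (n0 : ℝ) n1 := by
        have : (n1 : ℝ) + 1 ≤ n0 := by exact_mod_cast hlt
        rw [mem_uIcc]; right; constructor <;> linarith
      obtain ⟨t, ht, htt⟩ := hsub hmem
      rw [uIcc_of_le (by norm_num : (0:ℝ) ≤ 1)] at ht
      obtain ⟨n, hn, _⟩ := hval t ht
      simp only at htt
      rw [hn] at htt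
      have h2 : (2 * n : ℝ) = 2 * n1 + 1 := by linarith
      have h3 : 2 * n = 2 * n1 + 1 := by exact_mod_cast h2
      omega
  have e0 : L 0 - M 0 = L 1 - M 1 := by rw [hn0', hn1', this]
  linear_combination -e0

end TurnAux

theorem turn_eq {f L : ℝ → ℂ} (hL : ContinuousOn L (Icc 0 1))
    (h : ∀ t ∈ Icc (0 : ℝ) 1, Complex.exp (L t) = f t) :
    turn f = (L 1 - L 0).im / (2 * Real.pi) := by
  classical
  have hex : ∃ L : ℝ → ℂ, ContinuousOn L (Icc 0 1) ∧ ∀ t ∈ Icc (0 : ℝ) 1, Complex.exp (L t) = f t :=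
    ⟨L, hL, h⟩
  unfold turn
  rw [dif_pos hex, TurnAux.lift_unique hex.choose_spec.1 hL hex.choose_spec.2 h]

namespace TurnAux

/-- Clamping to `[0, 1]`. -/
noncomputable def clamp (t : ℝ) : ℝ := max 0 (min 1 t)

theorem clamp_mem (t : ℝ) : clamp t ∈ Icc (0 : ℝ) 1 :=
  ⟨le_max_left _ _, max_le (by norm_num) (min_le_left _ _)⟩

theorem clamp_eq {t : ℝ} (ht : t ∈ Icc (0 : ℝ) 1) : clamp t = t := by
  unfold clamp
  rw [min_eq_right ht.2, max_eq_right ht.1]

theorem clamp_continuous : Continuous clamp := by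
  unfold clamp; fun_prop

theorem exists_lift_univ {X : Type*} [TopologicalSpace X] [LocallyPathConnectedSpace X]
    [SimplyConnectedSpace X] {g : X → ℂ} (hg : Continuous g) (h0 : ∀ x, g x ≠ 0) :
    ∃ L : X → ℂ, Continuous L ∧ ∀ x, Complex.exp (L x) = g x := by
  obtain ⟨x₀⟩ : Nonempty X := inferInstance
  have hx₀ := h0 x₀
  rcases Complex.isCoveringMapOn_exp.existsUnique_continuousMap_lifts
    ⟨g, hg⟩ (Complex.exp_log hx₀) (fun x => h0 x) with ⟨f, ⟨-, hf⟩, -⟩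
  exact ⟨f, map_continuous f, fun x => congrFun hf x⟩

end TurnAux

theorem exists_lift {f : ℝ → ℂ} (hf : ContinuousOn f (Icc 0 1))
    (h0 : ∀ t ∈ Icc (0 : ℝ) 1, f t ≠ 0) :
    ∃ L : ℝ → ℂ, Continuous L ∧ ∀ t ∈ Icc (0 : ℝ) 1, Complex.exp (L t) = f t := by
  have hc : Continuous fun t => f (TurnAux.clamp t) :=
    hf.comp_continuous TurnAux.clamp_continuous TurnAux.clamp_mem
  obtain ⟨L, hL, h⟩ := TurnAux.exists_lift_univ hc (fun t => h0 _ (TurnAux.clamp_mem t))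
  exact ⟨L, hL, fun t ht => by rw [h t, TurnAux.clamp_eq ht]⟩

/-- The boundary winding number of `F` on the unit square. -/
noncomputable def bd (F : ℝ → ℝ → ℂ) : ℝ :=
  turn (fun s => F s 0) + turn (fun t => F 1 t) - turn (fun s => F s 1) - turn (fun t => F 0 t)

theorem bd_zero {F : ℝ → ℝ → ℂ} (hF : ContinuousOn (Function.uncurry F) (Icc 0 1 ×ˢ Icc 0 1))
    (h0 : ∀ s ∈ Icc (0 : ℝ) 1, ∀ t ∈ Icc (0 : ℝ) 1, F s t ≠ 0) : bd F = 0 := by
  have hc : Continuous fun p : ℝ × ℝ => F (TurnAux.clamp p.1) (TurnAux.clamp p.2) :=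
    hF.comp_continuous (f := fun p : ℝ × ℝ => (TurnAux.clamp p.1, TurnAux.clamp p.2))
      (by have := TurnAux.clamp_continuous; fun_prop)
      (fun p => ⟨TurnAux.clamp_mem _, TurnAux.clamp_mem _⟩)
  obtain ⟨L, hL, h⟩ := TurnAux.exists_lift_univ hc
    (fun p => h0 _ (TurnAux.clamp_mem p.1) _ (TurnAux.clamp_mem p.2))
  have h01 : (0 : ℝ) ∈ Icc (0 : ℝ) 1 := by simp
  have h11 : (1 : ℝ) ∈ Icc (0 : ℝ) 1 := by simp
  have h' : ∀ s ∈ Icc (0 : ℝ) 1, ∀ t ∈ Icc (0 : ℝ) 1, Complex.exp (L (s, t)) = F s t := by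
    intro s hs t ht
    rw [h (s, t), TurnAux.clamp_eq hs, TurnAux.clamp_eq ht]
  unfold bd
  rw [turn_eq (f := fun s => F s 0) (L := fun s => L (s, 0)) (by fun_prop)
      (fun s hs => h' s hs 0 h01),
    turn_eq (f := fun t => F 1 t) (L := fun t => L (1, t)) (by fun_prop)
      (fun t ht => h' 1 h11 t ht),
    turn_eq (f := fun s => F s 1) (L := fun s => L (s, 1)) (by fun_prop)
      (fun s hs => h' s hs 1 h11),
    turn_eq (f := fun t => F 0 t) (L := fun t => L (0, t)) (by fun_prop)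
      (fun t ht => h' 0 h01 t ht)]
  simp only [Complex.sub_im]
  ring

/-- Homotopy invariance: `H τ s t`, nonvanishing on the boundary of the square for all `τ`. -/
theorem bd_homotopy {H : ℝ → ℝ → ℝ → ℂ}
    (hH : ContinuousOn (fun p : ℝ × ℝ × ℝ => H p.1 p.2.1 p.2.2) (Icc 0 1 ×ˢ Icc 0 1 ×ˢ Icc 0 1))
    (h0 : ∀ τ ∈ Icc (0 : ℝ) 1, ∀ s ∈ Icc (0 : ℝ) 1, ∀ t ∈ Icc (0 : ℝ) 1,
      (s = 0 ∨ s = 1 ∨ t = 0 ∨ t = 1) → H τ s t ≠ 0) :
    bd (H 0) = bd (H 1) := by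
  have h01 : (0 : ℝ) ∈ Icc (0 : ℝ) 1 := by simp
  have h11 : (1 : ℝ) ∈ Icc (0 : ℝ) 1 := by simp
  have key : ∀ (g : ℝ × ℝ → ℝ × ℝ × ℝ), Continuous g →
      (∀ p ∈ Icc (0 : ℝ) 1 ×ˢ Icc (0 : ℝ) 1, g p ∈ Icc (0 : ℝ) 1 ×ˢ Icc (0 : ℝ) 1 ×ˢ Icc (0 : ℝ) 1) →
      ContinuousOn (fun p : ℝ × ℝ => H (g p).1 (g p).2.1 (g p).2.2) (Icc 0 1 ×ˢ Icc 0 1) := by
    intro g hg hm
    exact hH.comp hg.continuousOn hm
  have b1 : bd (fun s τ => H τ s 0) = 0 := bd_zero
    (key (fun p => (p.2, p.1, 0)) (by fun_prop) (fun p hp => ⟨hp.2, hp.1, h01⟩))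
    (fun s hs τ hτ => h0 τ hτ s hs 0 h01 (by simp))
  have b2 : bd (fun t τ => H τ 1 t) = 0 := bd_zero
    (key (fun p => (p.2, 1, p.1)) (by fun_prop) (fun p hp => ⟨hp.2, h11, hp.1⟩))
    (fun t ht τ hτ => h0 τ hτ 1 h11 t ht (by simp))
  have b3 : bd (fun s τ => H τ s 1) = 0 := bd_zero
    (key (fun p => (p.2, p.1, 1)) (by fun_prop) (fun p hp => ⟨hp.2, hp.1, h11⟩))
    (fun s hs τ hτ => h0 τ hτ s hs 1 h11 (by simp))
  have b4 : bd (fun t τ => H τ 0 t) = 0 := bd_zero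
    (key (fun p => (p.2, 0, p.1)) (by fun_prop) (fun p hp => ⟨hp.2, h01, hp.1⟩))
    (fun t ht τ hτ => h0 τ hτ 0 h01 t ht (by simp))
  unfold bd at b1 b2 b3 b4 ⊢
  linarith

end Pool.Agent.MP_4b7180_co
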